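import Mathlib

/-!
# The generalised Baire space and the games `G_κ(E, x₀, ω + 1)`
-/

namespace Pool.Agent.Q211.PF

open Cardinal Set Order

universe u

/-- The set of ordinals below `κ` (the canonical well-ordered type of order type `κ`). -/
abbrev Idx (κ : Cardinal.{u}) : Type u := κ.ord.ToType

/-- The generalised Baire space: all functions from `κ` to `κ`. -/
def GB (κ : Cardinal.{u}) : Type u := Idx κ → Idx κ

/-- `x ↾ a = y ↾ a`. -/
def Agree {κ : Cardinal.{u}} (a : Idx κ) (x y : GB κ) : Prop := ∀ i < a, x i = y i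

/-- The bounded topology, generated by the sets `{y | x ↾ a = y ↾ a}` for `a < κ`. -/
instance (κ : Cardinal.{u}) : TopologicalSpace (GB κ) :=
  TopologicalSpace.generateFrom {N | ∃ (a : Idx κ) (x : GB κ), N = {y | Agree a x y}}

/-- Player II has a winning strategy in the game `G_κ(E, x₀, ω + 1)`.

A run of the game is given by the strictly increasing sequence `α` of the moves of player I
(`α m` is the move `α_{m+1}` of the round `m + 1`; in the round `ω` his move is the supremum).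
The strategy of II gives her moves `x_0 = x₀, x_1, x_2, …` (`τ α n = x_n` depends only on the
moves `α_1, …, α_n`) and `x_ω = τω α`. -/
def IIWins {κ : Cardinal.{u}} (E : Set (GB κ)) (x₀ : GB κ) : Prop :=
  ∃ (τ : (ℕ → Idx κ) → ℕ → GB κ) (τω : (ℕ → Idx κ) → GB κ),
    (∀ (α β : ℕ → Idx κ) (n : ℕ), (∀ i < n, α i = β i) → τ α n = τ β n) ∧
    ∀ α : ℕ → Idx κ, StrictMono α →
      τ α 0 = x₀ ∧ (∀ n, 1 ≤ n → τ α n ∈ E) ∧ τω α ∈ E ∧
      (∀ m n, m < n → τ α m ≠ τ α n ∧ Agree (α m) (τ α m) (τ α n)) ∧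
      ∀ m, τ α m ≠ τω α ∧ Agree (α m) (τ α m) (τω α)

/-- `(ω + 1)`-perfect sets. -/
def OmegaPerfect {κ : Cardinal.{u}} (E : Set (GB κ)) : Prop :=
  IsClosed E ∧ ∀ x ∈ E, IIWins E x

/-- The hypothesis of the problem: `E` is closed and a continuous image of an
`(ω + 1)`-perfect set. -/
def Image {κ : Cardinal.{u}} (E : Set (GB κ)) : Prop :=
  IsClosed E ∧ ∃ D : Set (GB κ), OmegaPerfect D ∧ ∃ f : D → E, Continuous f ∧ Function.Surjective f

/-- The statement asked for in Q1, for the cardinal `κ`. -/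
def Q1 (κ : Cardinal.{u}) : Prop :=
  ∀ E : Set (GB κ), Image E → ∃ X ⊆ E, #X ≤ κ ^< κ ∧ ∀ x ∈ E \ X, IIWins E x

/-- The statement asked for in Q2, for the cardinal `κ`. -/
def Q2 (κ : Cardinal.{u}) : Prop :=
  ∀ E : Set (GB κ), Image E → ∃ X ⊆ E, #X ≤ κ ^< κ ∧ OmegaPerfect (E \ X)

/-- The (weak) perfect set property of closed sets: every closed set with more than `κ^{<κ}`
points has a nonempty `(ω + 1)`-perfect subset. -/
def PSP (κ : Cardinal.{u}) : Prop :=
  ∀ E : Set (GB κ), IsClosed E → κ ^< κ < #E → ∃ P ⊆ E, P.Nonempty ∧ OmegaPerfect P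

/-- `E` has fewer than `2^ℵ₀` nodes on each level. -/
def SmallLevels {κ : Cardinal.{u}} (E : Set (GB κ)) : Prop :=
  ∀ a : Idx κ, #(range fun (x : E) (i : Iio a) => x.1 i.1) < 2 ^ ℵ₀

/-- A Kurepa family: at least `ℵ₂` subsets of `ω₁` with only countably many traces on each
countable ordinal. -/
def KurepaFamily : Prop :=
  ∃ F : Set (Set (Idx (ℵ₁ : Cardinal.{u}))), ℵ_ 2 ≤ #F ∧
    ∀ a, {s | ∃ A ∈ F, s = A ∩ Iio a}.Countable

/-! ## Basic facts -/

variable {κ : Cardinal.{u}}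

theorem Agree.refl (a : Idx κ) (x : GB κ) : Agree a x x := fun _ _ => rfl
theorem Agree.symm {a : Idx κ} {x y : GB κ} (h : Agree a x y) : Agree a y x :=
  fun i hi => (h i hi).symm
theorem Agree.trans {a : Idx κ} {x y z : GB κ} (h : Agree a x y) (h' : Agree a y z) :
    Agree a x z := fun i hi => (h i hi).trans (h' i hi)
theorem Agree.mono {a b : Idx κ} {x y : GB κ} (h : Agree b x y) (hab : a ≤ b) : Agree a x y :=
  fun i hi => h i (hi.trans_le hab)

theorem isOpen_iff [Nonempty (Idx κ)] {U : Set (GB κ)} :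
    IsOpen U ↔ ∀ x ∈ U, ∃ a, ∀ y, Agree a x y → y ∈ U := by
  constructor
  · intro h
    induction h with
    | basic s hs =>
      obtain ⟨a, w, rfl⟩ := hs
      intro x hx
      exact ⟨a, fun y hy => Agree.trans hx hy⟩
    | univ =>
      intro x _
      exact ⟨Classical.arbitrary _, fun y _ => trivial⟩
    | inter s t _ _ h1 h2 =>
      rintro x ⟨hx1, hx2⟩
      obtain ⟨a, ha⟩ := h1 x hx1
      obtain ⟨b, hb⟩ := h2 x hx2
      exact ⟨max a b, fun y hy => ⟨ha y (hy.mono (le_max_left _ _)),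
        hb y (hy.mono (le_max_right _ _))⟩⟩
    | sUnion S _ h =>
      rintro x ⟨s, hs, hx⟩
      obtain ⟨a, ha⟩ := h s hs x hx
      exact ⟨a, fun y hy => ⟨s, hs, ha y hy⟩⟩
  · intro h
    have : U = ⋃₀ {N | (∃ (a : Idx κ) (x : GB κ), N = {y | Agree a x y}) ∧ N ⊆ U} := by
      ext x
      constructor
      · intro hx
        obtain ⟨a, ha⟩ := h x hx
        exact ⟨{y | Agree a x y}, ⟨⟨a, x, rfl⟩, fun y hy => ha y hy⟩, Agree.refl a x⟩
      · rintro ⟨N, ⟨_, hN⟩, hx⟩
        exact hN hx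
    rw [this]
    exact isOpen_sUnion fun N hN => TopologicalSpace.isOpen_generateFrom_of_mem hN.1

theorem isClosed_iff [Nonempty (Idx κ)] {E : Set (GB κ)} :
    IsClosed E ↔ ∀ x, (∀ a, ∃ y ∈ E, Agree a x y) → x ∈ E := by
  rw [← isOpen_compl_iff, isOpen_iff]
  constructor
  · intro h x hx
    by_contra hxE
    obtain ⟨a, ha⟩ := h x hxE
    obtain ⟨y, hy, hxy⟩ := hx a
    exact ha y hxy hy
  · intro h x hx
    by_contra hcon
    push Not at hcon
    apply hx
    apply h
    intro a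
    obtain ⟨y, hxy, hy⟩ := hcon a
    exact ⟨y, not_not.mp hy, hxy⟩

theorem IIWins.mono {E F : Set (GB κ)} (h : E ⊆ F) {x : GB κ} (hx : IIWins E x) :
    IIWins F x := by
  obtain ⟨τ, τω, h1, h2⟩ := hx
  refine ⟨τ, τω, h1, fun α hα => ?_⟩
  obtain ⟨a, b, c, d, e⟩ := h2 α hα
  exact ⟨a, fun n hn => h (b n hn), h c, d, e⟩

theorem noMax (hκ : ℵ₀ ≤ κ) (a : Idx κ) : ∃ b, a < b := by
  have : NoMaxOrder (Idx κ) := Cardinal.noMaxOrder hκ
  exact exists_gt a

theorem bounded (hκ : κ.IsRegular) (hu : ℵ₀ < κ) {ι : Type*} [Countable ι] (f : ι → Idx κ) :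
    ∃ b, ∀ i, f i < b := by
  by_contra hcon
  push Not at hcon
  have hc : IsCofinal (range f) := by
    intro b
    obtain ⟨i, hi⟩ := hcon b
    exact ⟨f i, mem_range_self i, hi⟩
  have h1 := Order.cof_le hc
  rw [Ordinal.cof_toType, hκ.cof_ord] at h1
  have h2 : #(range f) ≤ ℵ₀ := by
    rw [mk_le_aleph0_iff]
    exact (countable_range f).to_subtype
  exact absurd (hu.trans_le (h1.trans h2)) (lt_irrefl _)

end Pool.Agent.Q211.PF
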