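import Pool.Agent.Q211.PF.Def

/-!
# Every closed set is a continuous image of an `(ω + 1)`-perfect set
-/

namespace Pool.Agent.Q211.PF

open Cardinal Set Order

universe u

variable {κ : Cardinal.{u}}

theorem exists_equiv (hκ : ℵ₀ ≤ κ) : Nonempty (Idx κ × Bool ≃ Idx κ) := by
  rw [← Cardinal.eq]
  have h : #(Idx κ) = κ := by simp
  rw [mk_prod]
  simp only [lift_id', lift_id]
  rw [h]
  have : #Bool = 2 := by simp
  rw [this]
  simp only [lift_ofNat]
  exact mul_eq_left hκ ((natCast_lt_aleph0 (n := 2)).le.trans hκ) two_ne_zero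

theorem nonempty_idx (hκ : ℵ₀ ≤ κ) : Nonempty (Idx κ) := by
  rw [← mk_ne_zero_iff]
  simp only [mk_toType, card_ord]
  exact (aleph0_pos.trans_le hκ).ne'

theorem image_all (hκ : ℵ₀ ≤ κ) (E : Set (GB κ)) (hE : IsClosed E) : Image E := by
  classical
  obtain ⟨e⟩ := exists_equiv hκ
  have hne := nonempty_idx hκ
  refine ⟨hE, ?_⟩
  let p : GB κ → GB κ := fun z i => (e.symm (z i)).1
  have hpA : ∀ a z w, Agree a z w → Agree a (p z) (p w) := by
    intro a z w h i hi
    show (e.symm (z i)).1 = (e.symm (w i)).1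
    rw [h i hi]
  have hp : Continuous p := by
    constructor
    intro U hU
    rw [isOpen_iff] at hU ⊢
    intro z hz
    obtain ⟨a, ha⟩ := hU (p z) hz
    exact ⟨a, fun w hw => ha _ (hpA a z w hw)⟩
  let flip : Idx κ → Idx κ := fun v => e ((e.symm v).1, !(e.symm v).2)
  have hflip1 : ∀ v, (e.symm (flip v)).1 = (e.symm v).1 := fun v => by simp [flip]
  have hflip2 : ∀ v, flip v ≠ v := by
    intro v h
    have := congrArg (fun w => (e.symm w).2) h
    simp [flip] at this
  refine ⟨p ⁻¹' E, ⟨hE.preimage hp, ?_⟩, fun z => ⟨p z.1, z.2⟩, ?_, ?_⟩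
  · intro z hz
    let τ : (ℕ → Idx κ) → ℕ → GB κ := fun α n i =>
      if ∃ m < n, α m = i then flip (z i) else z i
    let τω : (ℕ → Idx κ) → GB κ := fun α i => if ∃ m, α m = i then flip (z i) else z i
    have hτE : ∀ α n, τ α n ∈ p ⁻¹' E := by
      intro α n
      have : p (τ α n) = p z := by
        funext i
        show (e.symm (if ∃ m < n, α m = i then flip (z i) else z i)).1 = (e.symm (z i)).1
        split_ifs
        · exact hflip1 _
        · rfl
      rw [mem_preimage, this]
      exact hz
    have hτω : ∀ α, τω α ∈ p ⁻¹' E := by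
      intro α
      have : p (τω α) = p z := by
        funext i
        show (e.symm (if ∃ m, α m = i then flip (z i) else z i)).1 = (e.symm (z i)).1
        split_ifs
        · exact hflip1 _
        · rfl
      rw [mem_preimage, this]
      exact hz
    refine ⟨τ, τω, ?_, ?_⟩
    · intro α β n h
      funext i
      have : (∃ m < n, α m = i) ↔ (∃ m < n, β m = i) := by
        constructor
        · rintro ⟨m, hm, rfl⟩
          exact ⟨m, hm, (h m hm).symm⟩
        · rintro ⟨m, hm, rfl⟩
          exact ⟨m, hm, h m hm⟩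
      show (if ∃ m < n, α m = i then flip (z i) else z i) =
        (if ∃ m < n, β m = i then flip (z i) else z i)
      simp only [this]
    · intro α hα
      have hm : ∀ m, τ α m (α m) = z (α m) := by
        intro m
        have : ¬ ∃ m' < m, α m' = α m := by
          rintro ⟨m', hm', h⟩
          exact hm'.ne (hα.injective h)
        show (if ∃ m' < m, α m' = α m then flip (z (α m)) else z (α m)) = z (α m)
        rw [if_neg this]
      refine ⟨?_, fun n _ => hτE α n, hτω α, ?_, ?_⟩
      · funext i
        have : ¬ ∃ m < 0, α m = i := by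
          rintro ⟨m, hm, _⟩
          exact absurd hm (Nat.not_lt_zero m)
        exact if_neg this
      · intro m n hmn
        constructor
        · intro h
          have h1 := congrFun h (α m)
          have h2 : τ α n (α m) = flip (z (α m)) := by
            show (if ∃ m' < n, α m' = α m then flip (z (α m)) else z (α m)) = _
            rw [if_pos ⟨m, hmn, rfl⟩]
          rw [hm m, h2] at h1
          exact hflip2 _ h1.symm
        · intro i hi
          show (if ∃ m' < m, α m' = i then flip (z i) else z i) =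
            (if ∃ m' < n, α m' = i then flip (z i) else z i)
          have : (∃ m' < m, α m' = i) ↔ (∃ m' < n, α m' = i) := by
            constructor
            · rintro ⟨m', hm', h⟩
              exact ⟨m', hm'.trans hmn, h⟩
            · rintro ⟨m', hm', rfl⟩
              exact ⟨m', hα.lt_iff_lt.mp hi, rfl⟩
          simp only [this]
      · intro m
        constructor
        · intro h
          have h1 := congrFun h (α m)
          have h2 : τω α (α m) = flip (z (α m)) := by
            show (if ∃ m', α m' = α m then flip (z (α m)) else z (α m)) = _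
            rw [if_pos ⟨m, rfl⟩]
          rw [hm m, h2] at h1
          exact hflip2 _ h1.symm
        · intro i hi
          show (if ∃ m' < m, α m' = i then flip (z i) else z i) =
            (if ∃ m', α m' = i then flip (z i) else z i)
          have : (∃ m' < m, α m' = i) ↔ (∃ m', α m' = i) := by
            constructor
            · rintro ⟨m', hm', h⟩
              exact ⟨m', h⟩
            · rintro ⟨m', rfl⟩
              exact ⟨m', hα.lt_iff_lt.mp hi, rfl⟩
          simp only [this]
  · exact Continuous.subtype_mk (hp.comp continuous_subtype_val) _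
  · rintro ⟨x, hx⟩
    have hpx : p (fun i => e (x i, true)) = x := by
      funext i
      show (e.symm (e (x i, true))).1 = x i
      simp
    refine ⟨⟨fun i => e (x i, true), ?_⟩, ?_⟩
    · rw [mem_preimage, hpx]
      exact hx
    · exact Subtype.ext hpx

/-! ## Player II does not win on sets with small levels -/

section Scheme

variable (τ : (ℕ → Idx κ) → ℕ → GB κ) (up : Idx κ → Idx κ)

/-- Replace the values of `g` from `n` on by `m, up m, up (up m), …`. -/
noncomputable def setFrom (g : ℕ → Idx κ) (n : ℕ) (m : Idx κ) : ℕ → Idx κ :=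
  fun k => if k < n then g k else up^[k - n] m

/-- The point at which the position `g ↾ n` and the answer to the further move `c` differ. -/
noncomputable def diffPt (g : ℕ → Idx κ) (n : ℕ) (c : Idx κ) : Idx κ :=
  open Classical in
  if h : ∃ i, τ (setFrom up g n c) n i ≠ τ (setFrom up g n c) (n + 1) i then h.choose else c

/-- The next bound. -/
noncomputable def nb (g : ℕ → Idx κ) (n : ℕ) (c : Idx κ) : Idx κ :=
  up (max (diffPt τ up g n c) c)

/-- The scheme of moves. -/
noncomputable def F (c₀ : Idx κ) (b : ℕ → Bool) : ℕ → (ℕ → Idx κ) × Idx κ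
  | 0 => (fun _ => c₀, c₀)
  | n + 1 =>
    let s := F c₀ b n
    if b n then (setFrom up s.1 n (nb τ up s.1 n s.2), up (nb τ up s.1 n s.2))
    else (setFrom up s.1 n s.2, nb τ up s.1 n s.2)

variable {τ up}

theorem setFrom_lt {g : ℕ → Idx κ} {n : ℕ} {m : Idx κ} {k : ℕ} (h : k < n) :
    setFrom up g n m k = g k := if_pos h

theorem setFrom_self {g : ℕ → Idx κ} {n : ℕ} {m : Idx κ} : setFrom up g n m n = m := by
  simp [setFrom]

theorem setFrom_mono (hup : ∀ a, a < up a) {g : ℕ → Idx κ} {n : ℕ} {m : Idx κ}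
    (hg : ∀ k l, k < l → l < n → g k < g l) (hm : ∀ k < n, g k < m) :
    StrictMono (setFrom up g n m) := by
  apply strictMono_nat_of_lt_succ
  intro k
  rcases lt_trichotomy (k + 1) n with h | h | h
  · rw [setFrom_lt h, setFrom_lt (by omega)]
    exact hg _ _ (by omega) h
  · subst h
    rw [setFrom_self, setFrom_lt (by omega)]
    exact hm _ (by omega)
  · have h1 : ¬ k < n := by omega
    have h2 : ¬ k + 1 < n := by omega
    simp only [setFrom, if_neg h1, if_neg h2]
    rw [show k + 1 - n = (k - n) + 1 by omega, Function.iterate_succ_apply']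
    exact hup _

theorem nb_gt (hup : ∀ a, a < up a) (g : ℕ → Idx κ) (n : ℕ) (c : Idx κ) :
    c < nb τ up g n c ∧ diffPt τ up g n c < nb τ up g n c :=
  ⟨(le_max_right _ _).trans_lt (hup _), (le_max_left _ _).trans_lt (hup _)⟩

theorem F_congr (c₀ : Idx κ) (b b' : ℕ → Bool) :
    ∀ n, (∀ i < n, b i = b' i) → F τ up c₀ b n = F τ up c₀ b' n := by
  intro n
  induction n with
  | zero => intro _; rfl
  | succ n ih =>
    intro h
    have h1 := ih fun i hi => h i (by omega)
    simp only [F, h1, h n (by omega)]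

theorem F_inv (hup : ∀ a, a < up a) (c₀ : Idx κ) (b : ℕ → Bool) :
    ∀ n, (∀ k l, k < l → l < n → (F τ up c₀ b n).1 k < (F τ up c₀ b n).1 l) ∧
      ∀ k < n, (F τ up c₀ b n).1 k < (F τ up c₀ b n).2 := by
  intro n
  induction n with
  | zero => exact ⟨fun k l _ h => absurd h (Nat.not_lt_zero _), fun k h => absurd h (Nat.not_lt_zero _)⟩
  | succ n ih =>
    obtain ⟨ih1, ih2⟩ := ih
    set s := F τ up c₀ b n with hs
    obtain ⟨h1, h2⟩ := nb_gt (τ := τ) hup s.1 n s.2
    by_cases hb : b n = true
    · have hF : F τ up c₀ b (n + 1) =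
          (setFrom up s.1 n (nb τ up s.1 n s.2), up (nb τ up s.1 n s.2)) := by
        simp only [F, hb, if_true, ← hs]
      have hm := setFrom_mono (up := up) hup ih1 (m := nb τ up s.1 n s.2)
        (fun k hk => (ih2 k hk).trans h1)
      rw [hF]
      refine ⟨fun k l hkl _ => hm hkl, fun k hk => ?_⟩
      refine lt_of_le_of_lt (hm.monotone (Nat.lt_succ_iff.mp hk)) ?_
      simp only [setFrom_self]
      exact hup _
    · have hF : F τ up c₀ b (n + 1) = (setFrom up s.1 n s.2, nb τ up s.1 n s.2) := by
        simp only [F, hb, ← hs]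
        simp
      have hm := setFrom_mono (up := up) hup ih1 (m := s.2) ih2
      rw [hF]
      refine ⟨fun k l hkl _ => hm hkl, fun k hk => ?_⟩
      refine lt_of_le_of_lt (hm.monotone (Nat.lt_succ_iff.mp hk)) ?_
      simp only [setFrom_self]
      exact h1

/-- The sequence of moves of player I along the branch `b`. -/
noncomputable def seq (τ : (ℕ → Idx κ) → ℕ → GB κ) (up : Idx κ → Idx κ) (c₀ : Idx κ)
    (b : ℕ → Bool) (k : ℕ) : Idx κ := (F τ up c₀ b (k + 1)).1 k

theorem F_step_lt (c₀ : Idx κ) (b : ℕ → Bool) (n k : ℕ) (hk : k < n) :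
    (F τ up c₀ b (n + 1)).1 k = (F τ up c₀ b n).1 k := by
  simp only [F]
  split_ifs
  · exact setFrom_lt hk
  · exact setFrom_lt hk

theorem F_eq_seq (c₀ : Idx κ) (b : ℕ → Bool) (n k : ℕ) (hk : k < n) :
    (F τ up c₀ b n).1 k = seq τ up c₀ b k := by
  induction n with
  | zero => exact absurd hk (Nat.not_lt_zero _)
  | succ n ih =>
    rcases Nat.lt_succ_iff_lt_or_eq.mp hk with h | rfl
    · rw [F_step_lt c₀ b n k h, ih h]
    · rfl

theorem seq_strictMono (hup : ∀ a, a < up a) (c₀ : Idx κ) (b : ℕ → Bool) :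
    StrictMono (seq τ up c₀ b) := by
  intro k l hkl
  rw [← F_eq_seq c₀ b (l + 1) k (by omega), ← F_eq_seq c₀ b (l + 1) l (by omega)]
  exact (F_inv hup c₀ b (l + 1)).1 k l hkl (by omega)

theorem seq_ge (hup : ∀ a, a < up a) (c₀ : Idx κ) (b : ℕ → Bool) (n : ℕ) :
    (F τ up c₀ b n).2 ≤ seq τ up c₀ b n := by
  rw [← F_eq_seq c₀ b (n + 1) n (by omega)]
  simp only [F]
  split_ifs
  · simp only [setFrom_self]
    exact (nb_gt hup _ _ _).1.le
  · simp only [setFrom_self]
    exact le_rfl

end Scheme

theorem not_wins (hκ : κ.IsRegular) (hu : ℵ₀ < κ) (E : Set (GB κ)) (hE : SmallLevels E)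
    (x₀ : GB κ) : ¬ IIWins E x₀ := by
  rintro ⟨τ, τω, hdep, hwin⟩
  obtain ⟨up, hup⟩ : ∃ up : Idx κ → Idx κ, ∀ a, a < up a := by
    choose up hup using noMax (κ := κ) hu.le
    exact ⟨up, hup⟩
  obtain ⟨c₀⟩ := nonempty_idx hu.le
  -- the difference point at stage `n` of the branch `b`
  let D : (ℕ → Bool) → ℕ → Idx κ := fun b n =>
    diffPt τ up (F τ up c₀ b n).1 n (F τ up c₀ b n).2
  have hDb : ∃ γ, ∀ b n, D b n < γ := by
    let f : (Σ n : ℕ, Fin n → Bool) → Idx κ := fun s =>
      D (fun i => if h : i < s.1 then s.2 ⟨i, h⟩ else false) s.1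
    obtain ⟨γ, hγ⟩ := bounded hκ hu f
    refine ⟨γ, fun b n => ?_⟩
    have h1 := hγ ⟨n, fun i => b i⟩
    have h2 : f ⟨n, fun i => b i⟩ = D b n := by
      show diffPt τ up _ _ _ = diffPt τ up _ _ _
      have : F τ up c₀ (fun i => if h : i < n then b i else false) n = F τ up c₀ b n :=
        F_congr c₀ _ _ n fun i hi => by simp [hi]
      simp only [this]
    rw [← h2]
    exact h1
  obtain ⟨γ, hγ⟩ := hDb
  -- branches are separated
  have key : ∀ b b' : ℕ → Bool, ∀ n, (∀ i < n, b i = b' i) → b n = false → b' n = true →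
      τω (seq τ up c₀ b) (D b n) ≠ τω (seq τ up c₀ b') (D b n) := by
    intro b b' n hbb hb hb'
    set s := F τ up c₀ b n with hs
    have hs' : F τ up c₀ b' n = s := (F_congr c₀ b b' n hbb).symm
    have hinv := F_inv (τ := τ) hup c₀ b n
    rw [← hs] at hinv
    have hF : F τ up c₀ b (n + 1) = (setFrom up s.1 n s.2, nb τ up s.1 n s.2) := by
      simp only [F, hb, ← hs]
      simp
    have hF' : F τ up c₀ b' (n + 1) =
        (setFrom up s.1 n (nb τ up s.1 n s.2), up (nb τ up s.1 n s.2)) := by
      simp only [F, hb', hs', if_true]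
    have hDn : D b n = diffPt τ up s.1 n s.2 := rfl
    have hm : StrictMono (setFrom up s.1 n s.2) := setFrom_mono hup hinv.1 hinv.2
    have hdiff : τ (setFrom up s.1 n s.2) n (D b n) ≠ τ (setFrom up s.1 n s.2) (n + 1) (D b n) := by
      have h1 := ((hwin _ hm).2.2.2.1 n (n + 1) (Nat.lt_succ_self n)).1
      have h2 : ∃ i, τ (setFrom up s.1 n s.2) n i ≠ τ (setFrom up s.1 n s.2) (n + 1) i := by
        by_contra hcon
        push Not at hcon
        exact h1 (funext hcon)
      rw [hDn, diffPt, dif_pos h2]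
      exact h2.choose_spec
    -- the branch `b`
    have e1 : τ (seq τ up c₀ b) (n + 1) = τ (setFrom up s.1 n s.2) (n + 1) := by
      apply hdep
      intro i hi
      rw [← F_eq_seq c₀ b (n + 1) i hi, hF]
    have e2 : τω (seq τ up c₀ b) (D b n) = τ (setFrom up s.1 n s.2) (n + 1) (D b n) := by
      have h1 := ((hwin _ (seq_strictMono (τ := τ) hup c₀ b)).2.2.2.2 (n + 1)).2 (D b n) (by
        refine lt_of_lt_of_le ?_ (seq_ge hup c₀ b (n + 1))
        rw [hF]
        exact (nb_gt hup s.1 n s.2).2)
      rw [← h1, e1]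
    -- the branch `b'`
    have e3 : τ (seq τ up c₀ b') n = τ (setFrom up s.1 n s.2) n := by
      apply hdep
      intro i hi
      rw [← F_eq_seq c₀ b' n i hi, hs', setFrom_lt hi]
    have e4 : τω (seq τ up c₀ b') (D b n) = τ (setFrom up s.1 n s.2) n (D b n) := by
      have h1 := ((hwin _ (seq_strictMono (τ := τ) hup c₀ b')).2.2.2.2 n).2 (D b n) (by
        rw [← F_eq_seq c₀ b' (n + 1) n (by omega), hF']
        simp only [setFrom_self]
        exact (nb_gt hup s.1 n s.2).2)
      rw [← h1, e3]
    rw [e2, e4]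
    exact hdiff.symm
  have inj : ∀ b b' : ℕ → Bool,
      (fun i : Iio γ => τω (seq τ up c₀ b) i.1) = (fun i : Iio γ => τω (seq τ up c₀ b') i.1) →
      b = b' := by
    intro b b' h
    by_contra hne
    have hex : ∃ n, b n ≠ b' n := by
      by_contra hcon
      push Not at hcon
      exact hne (funext hcon)
    classical
    have hlt : ∀ i < Nat.find hex, b i = b' i := fun i hi => by
      by_contra h'
      exact Nat.find_min hex hi h'
    have hn := Nat.find_spec hex
    cases hb : b (Nat.find hex) with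
    | false =>
      cases hb' : b' (Nat.find hex) with
      | false => exact hn (hb.trans hb'.symm)
      | true => exact key b b' _ hlt hb hb' (congrFun h ⟨_, hγ b _⟩)
    | true =>
      cases hb' : b' (Nat.find hex) with
      | true => exact hn (hb.trans hb'.symm)
      | false =>
        exact key b' b _ (fun i hi => (hlt i hi).symm) hb' hb (congrFun h ⟨_, hγ b' _⟩).symm
  -- count the nodes of level `γ`
  have hcard : (2 : Cardinal.{u}) ^ ℵ₀ ≤ #(range fun (x : E) (i : Iio γ) => x.1 i.1) := by
    have hf : ∀ b : ℕ → Bool, (fun i : Iio γ => τω (seq τ up c₀ b) i.1) ∈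
        range fun (x : E) (i : Iio γ) => x.1 i.1 := fun b =>
      ⟨⟨τω (seq τ up c₀ b), (hwin _ (seq_strictMono (τ := τ) hup c₀ b)).2.2.1⟩, rfl⟩
    let g : ULift.{u} (ℕ → Bool) → (range fun (x : E) (i : Iio γ) => x.1 i.1) :=
      fun b => ⟨_, hf b.down⟩
    have hg : Function.Injective g := by
      intro b b' h
      have := congrArg Subtype.val h
      exact ULift.ext _ _ (inj _ _ this)
    have h1 := mk_le_of_injective hg
    have h2 : #(ULift.{u} (ℕ → Bool)) = 2 ^ ℵ₀ := by simp
    rw [h2] at h1
    exact h1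
  exact absurd (hE γ) (not_lt.mpr hcard)

/-- If some closed set with more than `κ^{<κ}` points has small levels, both questions have a
negative answer at `κ`. -/
theorem not_questions (hκ : κ.IsRegular) (hu : ℵ₀ < κ)
    (h : ∃ E : Set (GB κ), IsClosed E ∧ κ ^< κ < #E ∧ SmallLevels E) : ¬ Q1 κ ∧ ¬ Q2 κ := by
  obtain ⟨E, hcl, hbig, hsm⟩ := h
  have hI := image_all hu.le E hcl
  have hex : ∀ X ⊆ E, #X ≤ κ ^< κ → ∃ x, x ∈ E \ X := by
    intro X hX hc
    by_contra hcon
    push Not at hcon
    have : E ⊆ X := fun x hx => by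
      by_contra hxX
      exact hcon x ⟨hx, hxX⟩
    exact absurd (hbig.trans_le ((mk_le_mk_of_subset this).trans hc)) (lt_irrefl _)
  constructor
  · intro hQ
    obtain ⟨X, hX, hc, hw⟩ := hQ E hI
    obtain ⟨x, hx⟩ := hex X hX hc
    exact not_wins hκ hu E hsm x (hw x hx)
  · intro hQ
    obtain ⟨X, hX, hc, hw⟩ := hQ E hI
    obtain ⟨x, hx⟩ := hex X hX hc
    exact not_wins hκ hu E hsm x ((hw.2 x hx).mono diff_subset)

end Pool.Agent.Q211.PF
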