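import Pool.Agent.Q211.PF.Surj
import Pool.Agent.Q211.PF.Img

/-!
# An everywhere large Kurepa tree
-/

namespace Pool.Agent.Q211.PF

open Cardinal Set Order

universe u

variable {κ μ : Cardinal.{u}}

/-- Sequences with finitely many switches. -/
def ZZ (e : Idx κ × Bool ≃ Idx κ) (B : Set (GB κ)) (b₀ : Idx κ) : Set (GB κ) :=
  {z | bit e z b₀ = false ∧ ∃ n, Good e B n z b₀}

/-- The tree of restrictions of the members of `Z`. -/
def TT (Z : Set (GB κ)) : Set (Node κ) := {s | ∃ z ∈ Z, res z s.1 = s}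

theorem tt_subtree (Z : Set (GB κ)) : IsSubtree (TT Z) := by
  rintro ⟨a, r⟩ ⟨z, hz, hs⟩ b hb
  refine ⟨z, hz, ?_⟩
  have hr : (fun i : Iio a => z i.1) = r := by simpa [res] using hs
  subst hr
  rfl

theorem mem_body_tt {Z : Set (GB κ)} {x : GB κ} :
    x ∈ body (TT Z) ↔ ∀ a, ∃ z ∈ Z, Agree a x z := by
  constructor
  · intro h a
    obtain ⟨z, hz, h1⟩ := h a
    exact ⟨z, hz, (res_eq_iff.mp h1).symm⟩
  · intro h a
    obtain ⟨z, hz, h1⟩ := h a
    exact ⟨z, hz, res_eq_iff.mpr h1.symm⟩

/-- Tails of branches of a tree with small levels. -/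
theorem tail (hκ : κ.IsRegular) (hμ : μ < κ) {T : Set (Node κ)} (hT : IsSubtree T)
    (hl : ∀ a : Idx κ, #{s : Node κ | s ∈ T ∧ s.1 = a} ≤ μ) (i : Idx κ) (v : Idx κ → Idx κ)
    (h : ∀ a, ∃ x ∈ body T, ∀ l, i ≤ l → l < a → v l = x l) :
    ∃ x ∈ body T, ∀ l, i ≤ l → v l = x l := by
  choose x hx hv using h
  -- some node of level `i` is used cofinally often
  have key : ∃ s : Node κ, ∀ a, ∃ b, a ≤ b ∧ res (x b) i = s := by
    by_contra hcon
    push Not at hcon
    choose c hc using hcon
    obtain ⟨b, hb⟩ := bounded' hκ ((hl i).trans_lt hμ)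
      (fun s : {s : Node κ | s ∈ T ∧ s.1 = i} => c s.1)
    have h1 : res (x b) i ∈ {s : Node κ | s ∈ T ∧ s.1 = i} := ⟨hx b i, rfl⟩
    have h2 := hb ⟨_, h1⟩
    exact hc (res (x b) i) b h2.le rfl
  obtain ⟨s, hs⟩ := key
  obtain ⟨b0, _, hb0⟩ := hs i
  refine ⟨fun l => if l < i then x b0 l else v l, fun a => ?_, fun l hl => ?_⟩
  · obtain ⟨b, hab, hb⟩ := hs a
    have hag : Agree i (x b) (x b0) := res_eq_iff.mp (hb.trans hb0.symm)
    have : res (fun l => if l < i then x b0 l else v l : GB κ) a = res (x b) a := by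
      rw [res_eq_iff]
      intro l hl
      by_cases hli : l < i
      · show (if l < i then x b0 l else v l) = x b l
        rw [if_pos hli]
        exact (hag l hli).symm
      · show (if l < i then x b0 l else v l) = x b l
        rw [if_neg hli]
        exact hv b l (not_lt.mp hli) (hl.trans_le hab)
    rw [this]
    exact hx b a
  · show v l = if l < i then x b0 l else v l
    rw [if_neg (not_lt.mpr hl)]

theorem good_closed (hκ : κ.IsRegular) (hμ : μ < κ) {T : Set (Node κ)} (hT : IsSubtree T)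
    (hl : ∀ a : Idx κ, #{s : Node κ | s ∈ T ∧ s.1 = a} ≤ μ) (e : Idx κ × Bool ≃ Idx κ)
    (z : GB κ) : ∀ (m : ℕ) (i : Idx κ), {j | i < j ∧ bit e z j = true}.Finite →
      {j | i < j ∧ bit e z j = true}.ncard = m →
      (∀ a, ∃ z', Agree a z z' ∧ ∃ n, Good e (body T) n z' i) → ∃ n, Good e (body T) n z i := by
  have hnm : NoMaxOrder (Idx κ) := Cardinal.noMaxOrder hκ.aleph0_le
  intro m
  induction m with
  | zero =>
    intro i hfin hcard h
    have hno : ∀ j, i < j → bit e z j = false := by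
      intro j hj
      by_contra hcon
      have h1 : j ∈ {j | i < j ∧ bit e z j = true} := ⟨hj, Bool.eq_true_of_not_eq_false hcon⟩
      rw [(Set.ncard_eq_zero hfin).mp hcard] at h1
      exact h1
    obtain ⟨x, hx, hv⟩ := tail hκ hμ hT hl i (val e z) (by
      intro a
      obtain ⟨z', hz', n, hn⟩ := h a
      obtain ⟨x, hx, hv⟩ := good_first hn
      refine ⟨x, hx, fun l hil hla => ?_⟩
      have h1 : val e z l = val e z' l := by simp only [val, hz' l hla]
      rw [h1]
      refine hv l hil fun j hij hjl => ?_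
      have h2 : bit e z' j = bit e z j := by simp only [bit, hz' j (hjl.trans_lt hla)]
      rw [h2]
      exact hno j hij)
    exact ⟨0, x, hx, fun j hj => ⟨hv j hj, fun hij => hno j hij⟩⟩
  | succ m ih =>
    intro i hfin hcard h
    have hne : {j | i < j ∧ bit e z j = true}.Nonempty := by
      rw [Set.nonempty_iff_ne_empty]
      intro hemp
      rw [hemp, Set.ncard_empty] at hcard
      exact absurd hcard (by omega)
    obtain ⟨j, ⟨hij, hbj⟩, hmin⟩ := WellFounded.has_min (wellFounded_lt (α := Idx κ)) _ hne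
    have hbet : ∀ l, i < l → l < j → bit e z l = false := by
      intro l hil hlj
      by_contra hcon
      exact hmin l ⟨hil, Bool.eq_true_of_not_eq_false hcon⟩ hlj
    have hset : {l | i < l ∧ bit e z l = true} = insert j {l | j < l ∧ bit e z l = true} := by
      ext l
      constructor
      · rintro ⟨h1, h2⟩
        rcases lt_trichotomy l j with hlj | rfl | hlj
        · rw [hbet l h1 hlj] at h2
          exact Bool.noConfusion h2
        · exact mem_insert _ _
        · exact mem_insert_of_mem _ ⟨hlj, h2⟩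
      · rintro (rfl | ⟨h1, h2⟩)
        · exact ⟨hij, hbj⟩
        · exact ⟨hij.trans h1, h2⟩
    have hfin' : {l | j < l ∧ bit e z l = true}.Finite :=
      hfin.subset (by rw [hset]; exact subset_insert _ _)
    have hcard' : {l | j < l ∧ bit e z l = true}.ncard = m := by
      have h1 : (insert j {l | j < l ∧ bit e z l = true}).ncard =
          {l | j < l ∧ bit e z l = true}.ncard + 1 :=
        Set.ncard_insert_of_notMem (fun h => lt_irrefl _ h.1) hfin'
      rw [← hset, hcard] at h1
      omega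
    have hstep : ∀ a, j < a → ∃ z', Agree a z z' ∧ (∃ n, Good e (body T) n z' i) ∧
        ∃ n, Good e (body T) n z' j := by
      intro a hja
      obtain ⟨z', hz', n, hn⟩ := h a
      refine ⟨z', hz', ⟨n, hn⟩, good_next hn hij ?_ ?_⟩
      · simp only [bit, ← hz' j hja]
        exact hbj
      · intro l hil hlj
        simp only [bit, ← hz' l (hlj.trans hja)]
        exact hbet l hil hlj
    obtain ⟨n, hn⟩ := ih j hfin' hcard' (by
      intro a
      obtain ⟨c, hc⟩ := exists_gt (max a j)
      obtain ⟨z', hz', -, hn⟩ := hstep c ((le_max_right _ _).trans_lt hc)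
      exact ⟨z', hz'.mono ((le_max_left _ _).trans hc.le), hn⟩)
    obtain ⟨c, hc⟩ := exists_gt j
    obtain ⟨z', hz', ⟨n', hn'⟩, -⟩ := hstep c hc
    obtain ⟨x, hx, hv⟩ := good_first hn'
    refine ⟨n + 1, Or.inr ⟨j, hij, hbj, ⟨x, hx, fun l hil hlj => ⟨?_, fun hil' =>
      hbet l hil' hlj⟩⟩, hn⟩⟩
    have h1 : val e z l = val e z' l := by simp only [val, hz' l (hlj.trans hc)]
    rw [h1]
    refine hv l hil fun k hik hkl => ?_
    have h2 : bit e z' k = bit e z k := by simp only [bit, hz' k (hkl.trans_lt (hlj.trans hc))]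
    rw [h2]
    exact hbet k hik (hkl.trans_lt hlj)

theorem body_eq (hκ : κ.IsRegular) (hu : ℵ₀ < κ) (hμ : μ < κ) {T : Set (Node κ)}
    (hT : IsSubtree T) (hl : ∀ a : Idx κ, #{s : Node κ | s ∈ T ∧ s.1 = a} ≤ μ)
    (e : Idx κ × Bool ≃ Idx κ) (b₀ : Idx κ) :
    body (TT (ZZ e (body T) b₀)) = ZZ e (body T) b₀ := by
  have hnm : NoMaxOrder (Idx κ) := Cardinal.noMaxOrder hκ.aleph0_le
  ext z
  rw [mem_body_tt]
  constructor
  · intro h
    refine ⟨?_, ?_⟩
    · obtain ⟨c, hc⟩ := exists_gt b₀
      obtain ⟨z', hz', hag⟩ := h c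
      simp only [bit, hag b₀ hc]
      exact hz'.1
    · have hfin : {j | b₀ < j ∧ bit e z j = true}.Finite := by
        by_contra hinf
        have hinf' : {j | b₀ < j ∧ bit e z j = true}.Infinite := hinf
        let s := hinf'.natEmbedding
        obtain ⟨a, ha⟩ := bounded hκ hu fun n => (s n).1
        obtain ⟨z', hz', hag⟩ := h a
        obtain ⟨n, hn⟩ := hz'.2
        have hf := good_finite hn
        have hsub : range (fun n => (s n).1) ⊆ {j | b₀ < j ∧ bit e z' j = true} := by
          rintro _ ⟨n, rfl⟩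
          refine ⟨(s n).2.1, ?_⟩
          have h1 := (s n).2.2
          have h3 : z (s n).1 = z' (s n).1 := hag (s n).1 (ha n)
          have h2 : bit e z' (s n).1 = bit e z (s n).1 :=
            congrArg (fun v => (e.symm v).2) h3.symm
          exact h2.trans h1
        refine (hf.subset hsub).not_infinite ?_
        exact Set.infinite_range_of_injective fun a b hab => s.injective (Subtype.ext hab)
      exact good_closed hκ hμ hT hl e z _ b₀ hfin rfl fun a => by
        obtain ⟨z', hz', hag⟩ := h a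
        exact ⟨z', hag, hz'.2⟩
  · intro h a
    exact ⟨z, h, Agree.refl a z⟩

theorem main (hμ0 : ℵ₀ ≤ μ) (hκ : κ = succ μ) {T : Set (Node κ)} (hT : IsKurepa κ μ T)
    (hf : ContinuousImage (body T)) :
    ∃ T' : Set (Node κ), IsKurepa κ μ T' ∧ EverywhereLarge T' ∧ ContinuousImage (body T') := by
  classical
  have hμ : μ < κ := by rw [hκ]; exact Order.lt_succ μ
  have hreg : κ.IsRegular := by rw [hκ]; exact isRegular_succ hμ0
  have hu : ℵ₀ < κ := hμ0.trans_lt hμ
  have hne : Nonempty (Idx κ) := nonempty_idx' hu.le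
  have hnm : NoMaxOrder (Idx κ) := Cardinal.noMaxOrder hu.le
  have hIio : ∀ a : Idx κ, #(Iio a) ≤ μ := by
    intro a
    have h1 : #(Iio a) < κ := mk_Iio_ord_toType a
    exact Order.lt_succ_iff.mp (h1.trans_eq hκ)
  obtain ⟨b₀, hb₀⟩ := exists_bot hu.le
  have hcard : #(Idx κ) = κ := by simp
  obtain ⟨e⟩ := exists_equiv (κ := κ) hu.le
  obtain ⟨e2⟩ : Nonempty (Idx κ ≃ Idx κ × Idx κ) := by
    rw [← Cardinal.eq, mk_prod]
    simp only [lift_id, hcard]
    exact (mul_eq_self hu.le).symm
  let e3 : Idx κ ≃ Idx κ × Idx κ × Bool :=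
    e.symm.trans ((Equiv.prodCongr e2 (Equiv.refl Bool)).trans (Equiv.prodAssoc _ _ _))
  obtain ⟨e4⟩ : Nonempty (Idx κ ≃ Idx κ × ℕ) := by
    rw [← Cardinal.eq, mk_prod]
    simp only [mk_nat, lift_aleph0, lift_id', hcard]
    exact (mul_aleph0_eq hu.le).symm
  obtain ⟨f', hfc, hfs⟩ := hf
  let f : GB κ → GB κ := fun y => (f' y).1
  have hfcont : Continuous f := continuous_subtype_val.comp hfc
  have hfB : ∀ y, f y ∈ body T := fun y => (f' y).2
  have hfsurj : ∀ x ∈ body T, ∃ y, f y = x := by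
    intro x hx
    obtain ⟨y, hy⟩ := hfs ⟨x, hx⟩
    exact ⟨y, congrArg Subtype.val hy⟩
  set B := body T with hB
  set Z := ZZ e B b₀ with hZ
  have hbody : body (TT Z) = Z := body_eq hreg hu hμ hT.subtree hT.levels e b₀
  -- the continuous surjection
  let dec : GB κ → GB κ := fun y i => (e4 (y i)).1
  let num : GB κ → ℕ := fun y => (e4 (y b₀)).2
  let reset : GB κ → GB κ := fun z l => if l = b₀ then e (val e z b₀, false) else z l
  let g : GB κ → GB κ := fun y => reset (gmap e e3 f (num y) (dec y))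
  have hreset : ∀ z n, Good e B n z b₀ → reset z ∈ Z := by
    intro z n hn
    refine ⟨?_, n, good_congr ?_ ?_ hn⟩
    · show (e.symm (if b₀ = b₀ then e (val e z b₀, false) else z b₀)).2 = false
      rw [if_pos rfl, Equiv.symm_apply_apply]
    · show val e z b₀ = (e.symm (if b₀ = b₀ then e (val e z b₀, false) else z b₀)).1
      rw [if_pos rfl, Equiv.symm_apply_apply]
    · intro l hl
      show z l = if l = b₀ then e (val e z b₀, false) else z l
      rw [if_neg hl.ne']
  have hgZ : ∀ y, g y ∈ Z := fun y => hreset _ _ (gmap_good hfB _ _ _)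
  have hgcont : Continuous g := by
    rw [continuous_iff]
    intro y a
    have h1 := (gmap_continuous (e := e) (e3 := e3) (f := f) hfcont (num y))
    rw [continuous_iff] at h1
    obtain ⟨c0, hc0⟩ := exists_gt b₀
    obtain ⟨c, hc⟩ := h1 (dec y) (max a c0)
    refine ⟨max c0 c, fun y' hy' => ?_⟩
    have h2 : num y' = num y := by
      simp only [num, hy' b₀ (hc0.trans_le (le_max_left _ _))]
    have h3 : Agree c (dec y) (dec y') := by
      intro i hi
      simp only [dec, hy' i (hi.trans_le (le_max_right _ _))]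
    have h4 := hc _ h3
    intro l hl
    show (if l = b₀ then e (val e (gmap e e3 f (num y) (dec y)) b₀, false)
        else gmap e e3 f (num y) (dec y) l) =
      (if l = b₀ then e (val e (gmap e e3 f (num y') (dec y')) b₀, false)
        else gmap e e3 f (num y') (dec y') l)
    rw [h2, ← h4 l (hl.trans_le (le_max_left _ _))]
    simp only [val, h4 b₀ (hc0.trans_le (le_max_right _ _))]
  have hgsurj : ∀ z ∈ Z, ∃ y, g y = z := by
    rintro z ⟨hb, n, hn⟩
    obtain ⟨y', hy1, hy2⟩ := gmap_surj (e := e) (e3 := e3) hfsurj e3.surjective n z b₀ hn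
    have hd : ∃ y : GB κ, dec y = y' ∧ num y = n := by
      refine ⟨fun i => e4.symm (y' i, n), ?_, ?_⟩
      · funext i; simp [dec]
      · simp [num]
    obtain ⟨y, hd1, hd2⟩ := hd
    refine ⟨y, ?_⟩
    funext l
    show (if l = b₀ then e (val e (gmap e e3 f (num y) (dec y)) b₀, false)
        else gmap e e3 f (num y) (dec y) l) = z l
    rw [hd1, hd2]
    by_cases hl : l = b₀
    · rw [if_pos hl, hl, hy1]
      have : e.symm (z b₀) = (val e z b₀, false) := Prod.ext rfl hb
      rw [← this, Equiv.apply_symm_apply]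
    · rw [if_neg hl]
      exact hy2 l (lt_of_le_of_ne (hb₀ l) (Ne.symm hl))
  -- switching keeps us in `Z`
  have hswitch : ∀ z ∈ Z, ∀ j, b₀ < j → ∀ x ∈ B, switch e z j x ∈ Z := by
    rintro z ⟨hb, n, hn⟩ j hj x hx
    refine ⟨?_, good_switch hn hj hx⟩
    simp only [bit, switch_lt hj]
    exact hb
  have hTlev : ∀ a, #(range fun x : B => res x.1 a) ≤ μ := by
    intro a
    refine le_trans (mk_le_mk_of_subset ?_) (hT.levels a)
    rintro _ ⟨x, rfl⟩
    exact ⟨x.2 a, rfl⟩
  have hlarge : EverywhereLarge (TT Z) := by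
    rintro s ⟨z, hz, hs⟩
    rw [hbody]
    obtain ⟨j, hj⟩ := exists_gt (max s.1 b₀)
    have hj1 : s.1 < j := (le_max_left _ _).trans_lt hj
    have hj2 : b₀ < j := (le_max_right _ _).trans_lt hj
    by_contra hcon
    push Not at hcon
    let S := {x : GB κ | x ∈ Z ∧ res x s.1 = s}
    let φ : B → S × (range fun x : B => res x.1 j) := fun x =>
      (⟨switch e z j x.1, hswitch z hz j hj2 x.1 x.2, by
        rw [← hs]
        exact res_eq_iff.mpr fun i hi => switch_lt (hi.trans hj1)⟩, ⟨_, ⟨x, rfl⟩⟩)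
    have hφ : Function.Injective φ := by
      intro x x' h
      have h1 : switch e z j x.1 = switch e z j x'.1 :=
        congrArg (fun p => p.1.1) h
      have h2 : res x.1 j = res x'.1 j := congrArg (fun p => p.2.1) h
      apply Subtype.ext
      funext l
      by_cases hl : l < j
      · exact res_eq_iff.mp h2 l hl
      · have hx1 := switch_val_ge (e := e) (z := z) (x := x.1) (not_lt.mp hl)
        have hx2 := switch_val_ge (e := e) (z := z) (x := x'.1) (not_lt.mp hl)
        rw [h1] at hx1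
        exact hx1.symm.trans hx2
    have h3 := mk_le_of_injective hφ
    rw [mk_prod, lift_id, lift_id] at h3
    have h4 : #B ≤ κ := h3.trans (by
      calc #S * #(range fun x : B => res x.1 j) ≤ κ * κ :=
            mul_le_mul' hcon ((hTlev j).trans hμ.le)
        _ = κ := mul_eq_self hu.le)
    exact absurd (hT.branches.trans_le h4) (lt_irrefl _)
  have hZne : Z.Nonempty := by
    have hBne : Nonempty B := by
      rw [← mk_ne_zero_iff]
      exact (pos_of_gt hT.branches).ne'
    obtain ⟨y, -⟩ := hfsurj _ hBne.some.2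
    exact ⟨g y, hgZ y⟩
  obtain ⟨z₀, hz₀⟩ := hZne
  refine ⟨TT Z, ⟨tt_subtree Z, fun a => ⟨res z₀ a, ⟨z₀, hz₀, rfl⟩, rfl⟩, fun a => ?_, ?_⟩,
    hlarge, ?_⟩
  · -- levels
    have hlev : ∀ n, #(range fun y : GB κ => fun i : Iio a => gmap e e3 f n y i.1) ≤ μ := by
      refine gmap_levels hμ0 a (hIio a) ?_
      let ψ : (range fun y : GB κ => fun i : Iio a => f y i.1) →
          {s : Node κ | s ∈ T ∧ s.1 = a} := fun r =>
        ⟨⟨a, r.1⟩, by
          obtain ⟨y, hy⟩ := r.2
          rw [← hy]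
          exact hfB y a, rfl⟩
      have hψ : Function.Injective ψ := by
        intro r r' h
        have h1 : (⟨a, r.1⟩ : Node κ) = ⟨a, r'.1⟩ := congrArg Subtype.val h
        apply Subtype.ext
        simpa using h1
      exact (mk_le_of_injective hψ).trans (hT.levels a)
    let R : ℕ → Set (Iio a → Idx κ) := fun n =>
      range fun y : GB κ => fun i : Iio a => gmap e e3 f n y i.1
    let G : (Σ n, R n) → Node κ := fun p => ⟨a, fun i =>
      if i.1 = b₀ then e ((e.symm (p.2.1 i)).1, false) else p.2.1 i⟩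
    have hsub : {s : Node κ | s ∈ TT Z ∧ s.1 = a} ⊆ range G := by
      rintro ⟨a', r⟩ ⟨⟨z, hz, hs⟩, hsa⟩
      have hsa' : a' = a := hsa
      subst hsa'
      obtain ⟨y, rfl⟩ := hgsurj z hz
      have hr : (fun i : Iio a' => g y i.1) = r := by simpa [res] using hs
      subst hr
      refine ⟨⟨num y, ⟨_, ⟨dec y, rfl⟩⟩⟩, ?_⟩
      show (⟨a', _⟩ : Node κ) = ⟨a', _⟩
      congr 1
      funext i
      show (if i.1 = b₀ then e ((e.symm (gmap e e3 f (num y) (dec y) i.1)).1, false)
        else gmap e e3 f (num y) (dec y) i.1) =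
        (if i.1 = b₀ then e (val e (gmap e e3 f (num y) (dec y)) b₀, false)
        else gmap e e3 f (num y) (dec y) i.1)
      by_cases hi : i.1 = b₀
      · rw [if_pos hi, if_pos hi, hi]
        rfl
      · rw [if_neg hi, if_neg hi]
    calc #{s : Node κ | s ∈ TT Z ∧ s.1 = a} ≤ #(range G) := mk_le_mk_of_subset hsub
      _ ≤ #(Σ n, R n) := mk_range_le
      _ = Cardinal.sum fun n => #(R n) := mk_sigma _
      _ ≤ Cardinal.sum fun _ : ℕ => μ := Cardinal.sum_le_sum _ _ fun n => hlev n
      _ = ℵ₀ * μ := by simp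
      _ ≤ μ * μ := mul_le_mul' hμ0 le_rfl
      _ = μ := mul_eq_self hμ0
  · -- many branches
    have h1 := hlarge (res z₀ b₀) ⟨z₀, hz₀, rfl⟩
    exact h1.trans_le (mk_le_mk_of_subset fun x hx => hx.1)
  · rw [hbody]
    refine ⟨fun y => ⟨g y, hgZ y⟩, Continuous.subtype_mk hgcont _, ?_⟩
    rintro ⟨z, hz⟩
    obtain ⟨y, hy⟩ := hgsurj z hz
    exact ⟨y, Subtype.ext hy⟩

end Pool.Agent.Q211.PF
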