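import Pool.Agent.Q211.PF.Def

/-!
# The perfect set property implies a positive answer
-/

namespace Pool.Agent.Q211.PF

open Cardinal Set Order

universe u

variable {κ : Cardinal.{u}}

/-- The number of basic open sets is at most `κ^{<κ}`. -/
theorem nodes_le (hκ : ℵ₀ ≤ κ) (hu : 1 < κ) :
    #(Σ a : Idx κ, (Iio a → Idx κ)) ≤ κ ^< κ := by
  have hle : κ ≤ κ ^< κ := by
    have := le_powerlt κ hu
    rwa [power_one] at this
  rw [mk_sigma]
  have h1 : ∀ a : Idx κ, #(Iio a → Idx κ) ≤ κ ^< κ := by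
    intro a
    have h2 : #(Iio a → Idx κ) = κ ^ #(Iio a) := by
      simp
    rw [h2]
    apply le_powerlt
    have := mk_Iio_ord_toType a
    exact this
  calc Cardinal.sum (fun a : Idx κ => #(Iio a → Idx κ))
      ≤ Cardinal.sum (fun _ : Idx κ => κ ^< κ) := Cardinal.sum_le_sum _ _ h1
    _ = #(Idx κ) * (κ ^< κ) := by simp
    _ = κ * (κ ^< κ) := by simp
    _ ≤ (κ ^< κ) * (κ ^< κ) := mul_le_mul_left hle _
    _ = κ ^< κ := mul_eq_self (hκ.trans hle)

/-- The points of `E` all of whose neighbourhoods in `E` are large. -/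
def Ker (E : Set (GB κ)) : Set (GB κ) :=
  {x | x ∈ E ∧ ∀ a, κ ^< κ < #{y | y ∈ E ∧ Agree a x y}}

theorem small_rest (hκ : ℵ₀ ≤ κ) (E : Set (GB κ)) : #(E \ Ker E : Set (GB κ)) ≤ κ ^< κ := by
  classical
  have hu : (1 : Cardinal) < κ := one_lt_aleph0.trans_le hκ
  have hle : ℵ₀ ≤ κ ^< κ := by
    have := le_powerlt κ hu
    rw [power_one] at this
    exact hκ.trans this
  let N : (Σ a : Idx κ, (Iio a → Idx κ)) → Set (GB κ) := fun s =>
    {y | y ∈ E ∧ ∀ i : Iio s.1, y i.1 = s.2 i}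
  let N' : (Σ a : Idx κ, (Iio a → Idx κ)) → Set (GB κ) := fun s =>
    if #(N s) ≤ κ ^< κ then N s else ∅
  have hsub : E \ Ker E ⊆ ⋃ s, N' s := by
    rintro x ⟨hx, hxK⟩
    have : ∃ a, #{y | y ∈ E ∧ Agree a x y} ≤ κ ^< κ := by
      by_contra hcon
      push Not at hcon
      exact hxK ⟨hx, hcon⟩
    obtain ⟨a, ha⟩ := this
    rw [mem_iUnion]
    refine ⟨⟨a, fun i => x i.1⟩, ?_⟩
    have hN : N ⟨a, fun i => x i.1⟩ = {y | y ∈ E ∧ Agree a x y} := by
      ext y
      constructor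
      · rintro ⟨h1, h2⟩
        exact ⟨h1, fun i hi => (h2 ⟨i, hi⟩).symm⟩
      · rintro ⟨h1, h2⟩
        exact ⟨h1, fun i => (h2 i.1 i.2).symm⟩
    simp only [N', hN, if_pos ha]
    exact ⟨hx, Agree.refl a x⟩
  calc #(E \ Ker E : Set (GB κ)) ≤ #(⋃ s, N' s) := mk_le_mk_of_subset hsub
    _ ≤ Cardinal.sum (fun s => #(N' s)) := mk_iUnion_le_sum_mk
    _ ≤ Cardinal.sum (fun _ : (Σ a : Idx κ, (Iio a → Idx κ)) => κ ^< κ) := by
        apply Cardinal.sum_le_sum
        intro s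
        simp only [N']
        split_ifs with h
        · exact h
        · simp
    _ = #(Σ a : Idx κ, (Iio a → Idx κ)) * (κ ^< κ) := by simp
    _ ≤ (κ ^< κ) * (κ ^< κ) := mul_le_mul_left (nodes_le hκ hu) _
    _ = κ ^< κ := mul_eq_self hle

theorem ker_large (hκ : ℵ₀ ≤ κ) (E : Set (GB κ)) (x : GB κ) (hx : x ∈ Ker E) (a : Idx κ) :
    κ ^< κ < #{y | y ∈ Ker E ∧ Agree a x y} := by
  have hu : (1 : Cardinal) < κ := one_lt_aleph0.trans_le hκ
  have hle : ℵ₀ ≤ κ ^< κ := by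
    have := le_powerlt κ hu
    rw [power_one] at this
    exact hκ.trans this
  by_contra hcon
  push Not at hcon
  have hsub : {y | y ∈ E ∧ Agree a x y} ⊆ {y | y ∈ Ker E ∧ Agree a x y} ∪ (E \ Ker E) := by
    rintro y ⟨h1, h2⟩
    by_cases h : y ∈ Ker E
    · exact Or.inl ⟨h, h2⟩
    · exact Or.inr ⟨h1, h⟩
  have h1 := hx.2 a
  have h2 := (mk_le_mk_of_subset hsub).trans (mk_union_le _ _)
  have h3 := h2.trans (add_le_add hcon (small_rest hκ E))
  rw [add_eq_self hle] at h3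
  exact absurd (h1.trans_le h3) (lt_irrefl _)

theorem ker_closed (hκ : ℵ₀ ≤ κ) [Nonempty (Idx κ)] (E : Set (GB κ)) (hE : IsClosed E) :
    IsClosed (Ker E) := by
  rw [isClosed_iff] at hE ⊢
  intro x hx
  refine ⟨hE x fun a => ?_, fun a => ?_⟩
  · obtain ⟨y, hy, hxy⟩ := hx a
    exact ⟨y, hy.1, hxy⟩
  · obtain ⟨y, hy, hxy⟩ := hx a
    refine (hy.2 a).trans_le (mk_le_mk_of_subset ?_)
    rintro z ⟨h1, h2⟩
    exact ⟨h1, hxy.trans h2⟩

/-- The moves which II imagines. -/
noncomputable def push (up : Idx κ → Idx κ) (d : Idx κ) (α : ℕ → Idx κ) : ℕ → Idx κ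
  | 0 => max (α 1) (up d)
  | n + 1 => max (α (n + 2)) (up (push up d α n))

theorem push_strictMono (up : Idx κ → Idx κ) (hup : ∀ a, a < up a) (d : Idx κ) (α : ℕ → Idx κ) :
    StrictMono (push up d α) :=
  strictMono_nat_of_lt_succ fun n => (hup _).trans_le (le_max_right _ _)

theorem push_ge (up : Idx κ → Idx κ) (d : Idx κ) (α : ℕ → Idx κ) (n : ℕ) :
    α (n + 1) ≤ push up d α n := by
  cases n with
  | zero => exact le_max_left _ _
  | succ n => exact le_max_left _ _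

theorem push_gt (up : Idx κ → Idx κ) (hup : ∀ a, a < up a) (d : Idx κ) (α : ℕ → Idx κ) (n : ℕ) :
    d < push up d α n := by
  have h0 : d < push up d α 0 := (hup d).trans_le (le_max_right _ _)
  exact h0.trans_le ((push_strictMono up hup d α).monotone (Nat.zero_le n))

theorem push_congr (up : Idx κ → Idx κ) (d : Idx κ) (α β : ℕ → Idx κ) (n : ℕ)
    (h : ∀ i ≤ n + 1, α i = β i) : push up d α n = push up d β n := by
  induction n with
  | zero => simp only [push, h 1 le_rfl]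
  | succ n ih =>
    simp only [push]
    rw [ih fun i hi => h i (by omega), h (n + 2) (by omega)]

theorem wins_ker (hκ : κ.IsRegular) (hu : ℵ₀ < κ) (hP : PSP κ) (E : Set (GB κ))
    (hE : IsClosed E) (x₀ : GB κ) (hx : x₀ ∈ Ker E) : IIWins (Ker E) x₀ := by
  classical
  have hne : Nonempty (Idx κ) := by
    rw [← mk_ne_zero_iff]
    simp only [mk_toType, card_ord]
    exact (aleph0_pos.trans hu).ne'
  have hnm : NoMaxOrder (Idx κ) := Cardinal.noMaxOrder hu.le
  obtain ⟨up, hup⟩ : ∃ up : Idx κ → Idx κ, ∀ a, a < up a := by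
    choose up hup using fun a : Idx κ => exists_gt a
    exact ⟨up, hup⟩
  obtain ⟨s₀, hs₀⟩ : ∃ s : ℕ → Idx κ, StrictMono s := by
    obtain ⟨c⟩ := hne
    exact ⟨fun n => up^[n] c, strictMono_nat_of_lt_succ fun n => by
      rw [Function.iterate_succ_apply']; exact hup _⟩
  have hK := ker_closed hu.le E hE
  have hcl : ∀ a, IsClosed {y | y ∈ Ker E ∧ Agree a x₀ y} := by
    intro a
    rw [isClosed_iff] at hK ⊢
    intro z hz
    refine ⟨hK z fun b => ?_, ?_⟩
    · obtain ⟨y, hy, hzy⟩ := hz b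
      exact ⟨y, hy.1, hzy⟩
    · obtain ⟨y, hy, hzy⟩ := hz a
      exact hy.2.trans hzy.symm
  have hstep : ∀ a, ∃ (P : Set (GB κ)) (p : GB κ), P ⊆ {y | y ∈ Ker E ∧ Agree a x₀ y} ∧
      p ∈ P ∧ p ≠ x₀ ∧ IIWins P p := by
    intro a
    obtain ⟨P, hPs, ⟨p, hp⟩, hPp⟩ := hP _ (hcl a) (ker_large hu.le E x₀ hx a)
    by_cases hpx : p = x₀
    · obtain ⟨τ, τω, _, h2⟩ := hPp.2 p hp
      obtain ⟨h3, h4, _, h6, _⟩ := h2 s₀ hs₀
      have h7 := (h6 0 1 Nat.zero_lt_one).1
      have h8 := h4 1 le_rfl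
      refine ⟨P, τ s₀ 1, hPs, h8, ?_, hPp.2 _ h8⟩
      rw [h3, hpx] at h7
      exact h7.symm
    · exact ⟨P, p, hPs, hp, hpx, hPp.2 p hp⟩
  choose P p hPs hpP hpx hwin using hstep
  choose τ' τω' hdep' hwin' using hwin
  have hd : ∀ a, ∃ i, p a i ≠ x₀ i := by
    intro a
    by_contra hcon
    push Not at hcon
    exact hpx a (funext hcon)
  choose d hd using hd
  let β : (ℕ → Idx κ) → ℕ → Idx κ := fun α => push up (d (α 0)) α
  have hβ : ∀ α, StrictMono (β α) := fun α => push_strictMono up hup _ α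
  refine ⟨fun α n => Nat.casesOn n x₀ fun n => τ' (α 0) (β α) n,
    fun α => τω' (α 0) (β α), ?_, ?_⟩
  · intro α α' n h
    cases n with
    | zero => rfl
    | succ n =>
      show τ' (α 0) (β α) n = τ' (α' 0) (β α') n
      have h0 : α 0 = α' 0 := h 0 (by omega)
      rw [← h0]
      apply hdep'
      intro i hi
      show push up (d (α 0)) α i = push up (d (α' 0)) α' i
      rw [← h0]
      exact push_congr up _ α α' i fun j hj => h j (by omega)
  · intro α hα
    obtain ⟨h1, h2, h3, h4, h5⟩ := hwin' (α 0) (β α) (hβ α)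
    have hmem : ∀ n, τ' (α 0) (β α) n ∈ P (α 0) := by
      intro n
      rcases Nat.eq_zero_or_pos n with rfl | hn
      · rw [h1]; exact hpP _
      · exact h2 n hn
    -- all later positions differ from `x₀` at `d`
    have hdn : ∀ n, τ' (α 0) (β α) n (d (α 0)) ≠ x₀ (d (α 0)) := by
      intro n
      rcases Nat.eq_zero_or_pos n with rfl | hn
      · rw [h1]; exact hd _
      · have := (h4 0 n hn).2 (d (α 0)) (push_gt up hup _ α 0)
        rw [← this, h1]
        exact hd _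
    have hdω : τω' (α 0) (β α) (d (α 0)) ≠ x₀ (d (α 0)) := by
      have := (h5 0).2 (d (α 0)) (push_gt up hup _ α 0)
      rw [← this, h1]
      exact hd _
    refine ⟨rfl, ?_, (hPs _ h3).1, ?_, ?_⟩
    · intro n hn
      obtain ⟨n, rfl⟩ := Nat.exists_eq_succ_of_ne_zero (by omega : n ≠ 0)
      exact (hPs _ (hmem n)).1
    · intro m n hmn
      obtain ⟨n, rfl⟩ := Nat.exists_eq_succ_of_ne_zero (by omega : n ≠ 0)
      cases m with
      | zero =>
        refine ⟨fun h => hdn n ?_, (hPs _ (hmem n)).2⟩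
        exact (congrFun h (d (α 0))).symm
      | succ m =>
        refine ⟨(h4 m n (by omega)).1, ?_⟩
        exact (h4 m n (by omega)).2.mono (push_ge up _ α m)
    · intro m
      cases m with
      | zero =>
        refine ⟨fun h => hdω ?_, (hPs _ h3).2⟩
        exact (congrFun h (d (α 0))).symm
      | succ m =>
        exact ⟨(h5 m).1, (h5 m).2.mono (push_ge up _ α m)⟩

theorem questions_of_psp (hκ : κ.IsRegular) (hu : ℵ₀ < κ) (hP : PSP κ) : Q1 κ ∧ Q2 κ := by
  have hne : Nonempty (Idx κ) := by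
    rw [← mk_ne_zero_iff]
    simp only [mk_toType, card_ord]
    exact (aleph0_pos.trans hu).ne'
  have hsub : ∀ E : Set (GB κ), E \ (E \ Ker E) = Ker E := by
    intro E
    ext x
    constructor
    · rintro ⟨h1, h2⟩
      by_contra h3
      exact h2 ⟨h1, h3⟩
    · intro h
      exact ⟨h.1, fun h2 => h2.2 h⟩
  constructor
  · intro E hE
    refine ⟨E \ Ker E, diff_subset, small_rest hu.le E, fun x hx => ?_⟩
    rw [hsub] at hx
    exact (wins_ker hκ hu hP E hE.1 x hx).mono fun y hy => hy.1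
  · intro E hE
    refine ⟨E \ Ker E, diff_subset, small_rest hu.le E, ?_⟩
    rw [hsub]
    exact ⟨ker_closed hu.le E hE.1, fun x hx => wins_ker hκ hu hP E hE.1 x hx⟩

end Pool.Agent.Q211.PF
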