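import Pool.Agent.Q211.PF.Img
import Pool.Agent.Q211.PF.Psp

/-!
# Closed retracts of the generalised Baire space with a prescribed large part
-/

namespace Pool.Agent.Q211.PF

open Cardinal Set Order

universe u

variable {κ : Cardinal.{u}}

/-- `x ↾ b` is an initial segment of a point of `E`. -/
def InT (E : Set (GB κ)) (b : Idx κ) (x : GB κ) : Prop := ∃ y ∈ E, Agree b x y

theorem InT.mono {E : Set (GB κ)} {a b : Idx κ} {x : GB κ} (h : InT E b x) (hab : a ≤ b) :
    InT E a x := by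
  obtain ⟨y, hy, hxy⟩ := h
  exact ⟨y, hy, hxy.mono hab⟩

theorem InT.congr {E : Set (GB κ)} {b : Idx κ} {x y : GB κ} (h : InT E b x) (hxy : Agree b x y) :
    InT E b y := by
  obtain ⟨z, hz, hxz⟩ := h
  exact ⟨z, hz, hxy.symm.trans hxz⟩

/-- `x ↾ b` followed by the constant `c`. -/
noncomputable def cut (c b : Idx κ) (x : GB κ) : GB κ :=
  open Classical in fun i => if i < b then x i else c

theorem cut_agree (c b : Idx κ) (x : GB κ) : Agree b x (cut c b x) := by
  intro i hi
  simp [cut, hi]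

theorem cut_congr (c b : Idx κ) {x y : GB κ} (h : Agree b x y) : cut c b x = cut c b y := by
  funext i
  by_cases hi : i < b
  · simp [cut, hi, h i hi]
  · simp [cut, hi]

/-- The least level at which `x` leaves the tree of `E` (if there is one). -/
noncomputable def lv (E : Set (GB κ)) (c : Idx κ) (x : GB κ) : Idx κ :=
  open Classical in if h : ∃ a, ¬ InT E a x ∧ ∀ b < a, InT E b x then h.choose else c

/-- A point of `E` extending `w ↾ b`. -/
noncomputable def extOf (E : Set (GB κ)) (b : Idx κ) (w : GB κ) : GB κ :=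
  open Classical in if h : ∃ y ∈ E, Agree b w y then h.choose else w

/-- A point of `E` extending `x ↾ b`; it depends on `x ↾ b` only. -/
noncomputable def ext (E : Set (GB κ)) (c b : Idx κ) (x : GB κ) : GB κ := extOf E b (cut c b x)

/-- If `a` is the successor of `b`, go to a point of `E` extending `x ↾ b`;
if `a` is a limit, go to `x ↾ a` followed by the constant `c`. -/
noncomputable def pr (E : Set (GB κ)) (c a : Idx κ) (x : GB κ) : GB κ :=
  open Classical in
  if h : ∃ b < a, ∀ b' < a, b' ≤ b then ext E c h.choose x else cut c a x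

/-- The retraction. Points of `E` are fixed. The other points are moved according to the least
level at which they leave the tree of `E`. -/
noncomputable def ret (E : Set (GB κ)) (c : Idx κ) (x : GB κ) : GB κ :=
  open Classical in if x ∈ E then x else pr E c (lv E c x) x

theorem leave_unique {E : Set (GB κ)} {x : GB κ} {a a' : Idx κ}
    (h : ¬ InT E a x ∧ ∀ b < a, InT E b x) (h' : ¬ InT E a' x ∧ ∀ b < a', InT E b x) : a = a' := by
  rcases lt_trichotomy a a' with h1 | h1 | h1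
  · exact absurd (h'.2 a h1) h.1
  · exact h1
  · exact absurd (h.2 a' h1) h'.1

theorem mem_of_forall [Nonempty (Idx κ)] {E : Set (GB κ)} (hE : IsClosed E) {x : GB κ}
    (h : ∀ a, InT E a x) : x ∈ E :=
  (isClosed_iff.mp hE) x h

theorem exists_leave [Nonempty (Idx κ)] {E : Set (GB κ)} (hE : IsClosed E) {x : GB κ}
    (h : x ∉ E) : ∃ a, ¬ InT E a x ∧ ∀ b < a, InT E b x := by
  have h1 : ∃ a, ¬ InT E a x := by
    by_contra hcon
    push Not at hcon
    exact h (mem_of_forall hE hcon)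
  obtain ⟨a, ha, hmin⟩ := WellFounded.has_min (wellFounded_lt (α := Idx κ)) {a | ¬ InT E a x} h1
  refine ⟨a, ha, fun b hb => ?_⟩
  by_contra hcon
  exact hmin b hcon hb

theorem lv_spec [Nonempty (Idx κ)] {E : Set (GB κ)} (hE : IsClosed E) (c : Idx κ) {x : GB κ}
    (h : x ∉ E) : ¬ InT E (lv E c x) x ∧ ∀ b < lv E c x, InT E b x := by
  have h1 := exists_leave hE h
  rw [lv, dif_pos h1]
  exact h1.choose_spec

theorem lv_congr [Nonempty (Idx κ)] {E : Set (GB κ)} (hE : IsClosed E) (c : Idx κ) {x y : GB κ}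
    (h : x ∉ E) (hxy : Agree (lv E c x) x y) : y ∉ E ∧ lv E c y = lv E c x := by
  have h1 := lv_spec hE c h
  have hy : y ∉ E := fun hy => h1.1 ⟨y, hy, hxy⟩
  refine ⟨hy, leave_unique (lv_spec hE c hy) ⟨fun h2 => h1.1 (h2.congr hxy.symm), fun b hb => ?_⟩⟩
  exact (h1.2 b hb).congr (hxy.mono hb.le)

theorem ext_congr {E : Set (GB κ)} (c b : Idx κ) {x y : GB κ} (h : Agree b x y) :
    ext E c b x = ext E c b y := by
  rw [ext, ext, cut_congr c b h]

theorem ext_spec {E : Set (GB κ)} (c b : Idx κ) {x : GB κ} (h : InT E b x) :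
    ext E c b x ∈ E ∧ Agree b x (ext E c b x) := by
  obtain ⟨y, hy, hxy⟩ := h
  have h1 : ∃ y ∈ E, Agree b (cut c b x) y := ⟨y, hy, (cut_agree c b x).symm.trans hxy⟩
  rw [ext, extOf, dif_pos h1]
  exact ⟨h1.choose_spec.1, (cut_agree c b x).trans h1.choose_spec.2⟩

theorem ret_mem {E : Set (GB κ)} (c : Idx κ) {x : GB κ} (h : x ∈ E) : ret E c x = x := if_pos h

theorem ret_congr [Nonempty (Idx κ)] {E : Set (GB κ)} (hE : IsClosed E) (c : Idx κ) {x y : GB κ}
    (h : x ∉ E) (hxy : Agree (lv E c x) x y) : ret E c y = ret E c x := by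
  obtain ⟨hy, hlv⟩ := lv_congr hE c h hxy
  rw [ret, ret, if_neg h, if_neg hy, hlv, pr, pr]
  split_ifs with h1
  · exact (ext_congr c _ (hxy.mono h1.choose_spec.1.le)).symm
  · exact (cut_congr c _ hxy).symm

theorem ret_agree [Nonempty (Idx κ)] {E : Set (GB κ)} (hE : IsClosed E) (c : Idx κ) {b : Idx κ}
    {x : GB κ} (h : InT E b x) : Agree b x (ret E c x) := by
  by_cases hx : x ∈ E
  · rw [ret_mem c hx]
    exact Agree.refl _ _
  · have h1 := lv_spec hE c hx
    have hb : b < lv E c x := by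
      by_contra hcon
      exact h1.1 (h.mono (not_lt.mp hcon))
    rw [ret, if_neg hx, pr]
    split_ifs with h2
    · exact (ext_spec c _ (h1.2 _ h2.choose_spec.1)).2.mono (h2.choose_spec.2 b hb)
    · exact (cut_agree c _ x).mono hb.le

theorem ret_cases [Nonempty (Idx κ)] {E : Set (GB κ)} (hE : IsClosed E) (c : Idx κ) (x : GB κ) :
    ret E c x ∈ E ∨ (x ∉ E ∧ Agree (lv E c x) x (ret E c x)) := by
  by_cases hx : x ∈ E
  · left
    rw [ret_mem c hx]
    exact hx
  · have h1 := lv_spec hE c hx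
    by_cases h2 : ∃ b < lv E c x, ∀ b' < lv E c x, b' ≤ b
    · left
      rw [ret, if_neg hx, pr, dif_pos h2]
      exact (ext_spec c _ (h1.2 _ h2.choose_spec.1)).1
    · right
      rw [ret, if_neg hx, pr, dif_neg h2]
      exact ⟨hx, cut_agree c _ x⟩

theorem ret_ret [Nonempty (Idx κ)] {E : Set (GB κ)} (hE : IsClosed E) (c : Idx κ) (x : GB κ) :
    ret E c (ret E c x) = ret E c x := by
  rcases ret_cases hE c x with h | ⟨h1, h2⟩
  · exact ret_mem c h
  · exact ret_congr hE c h1 h2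

theorem ret_continuous [Nonempty (Idx κ)] {E : Set (GB κ)} (hE : IsClosed E) (c : Idx κ) :
    Continuous (ret E c) := by
  constructor
  intro U hU
  rw [isOpen_iff] at hU ⊢
  intro x hx
  obtain ⟨a, ha⟩ := hU _ hx
  by_cases hxE : x ∈ E
  · refine ⟨a, fun y hxy => ha _ ?_⟩
    rw [ret_mem c hxE]
    exact hxy.trans (ret_agree hE c ⟨x, hxE, hxy.symm⟩)
  · refine ⟨lv E c x, fun y hxy => ?_⟩
    show ret E c y ∈ U
    rw [ret_congr hE c hxE hxy]
    exact hx

theorem range_closed (hκ : ℵ₀ ≤ κ) [Nonempty (Idx κ)] {E : Set (GB κ)} (hE : IsClosed E)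
    (c : Idx κ) : IsClosed (range (ret E c)) := by
  rw [isClosed_iff]
  intro x hx
  by_cases hxE : x ∈ E
  · exact ⟨x, ret_mem c hxE⟩
  · refine ⟨x, ?_⟩
    funext i
    obtain ⟨d, hd⟩ := noMax hκ (max i (lv E c x))
    obtain ⟨y, ⟨z, rfl⟩, hxy⟩ := hx d
    have h1 : ret E c (ret E c z) = ret E c x :=
      ret_congr hE c hxE (hxy.mono ((le_max_right _ _).trans hd.le))
    rw [← h1, ret_ret hE c z]
    exact (hxy i ((le_max_left _ _).trans_lt hd)).symm

theorem isolated [Nonempty (Idx κ)] {E : Set (GB κ)} (hE : IsClosed E) (c : Idx κ) {w : GB κ}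
    (hw : w ∈ range (ret E c)) (hwE : w ∉ E) :
    ∃ a, ∀ y ∈ range (ret E c), Agree a w y → y = w := by
  refine ⟨lv E c w, ?_⟩
  rintro _ ⟨z, rfl⟩ hz
  obtain ⟨v, rfl⟩ := hw
  have h1 := ret_congr hE c hwE hz
  rw [ret_ret hE, ret_ret hE] at h1
  exact h1

theorem exists_move (hκ : ℵ₀ ≤ κ) (a : Idx κ) : ∃ α : ℕ → Idx κ, StrictMono α ∧ a ≤ α 0 := by
  obtain ⟨up, hup⟩ : ∃ up : Idx κ → Idx κ, ∀ a, a < up a := by
    choose up hup using noMax (κ := κ) hκ
    exact ⟨up, hup⟩
  refine ⟨fun n => up^[n] a, strictMono_nat_of_lt_succ fun n => ?_, le_rfl⟩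
  rw [Function.iterate_succ_apply']
  exact hup _

/-- If `E` is closed and large near each of its points, then removing a small set from the range
of the retraction does not give an `(ω + 1)`-perfect set, unless it gives `E`. -/
theorem perfect_eq (hκ : ℵ₀ ≤ κ) [Nonempty (Idx κ)] {E : Set (GB κ)} (hE : IsClosed E)
    (hl : ∀ x ∈ E, ∀ a, κ ^< κ < #{y | y ∈ E ∧ Agree a x y}) (c : Idx κ) (X : Set (GB κ))
    (hX : #X ≤ κ ^< κ) (hP : OmegaPerfect (range (ret E c) \ X)) :
    range (ret E c) \ X = E := by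
  apply Subset.antisymm
  · intro w hw
    by_contra hwE
    obtain ⟨a, ha⟩ := isolated hE c hw.1 hwE
    obtain ⟨τ, τω, _, h⟩ := hP.2 w hw
    obtain ⟨α, hα, haα⟩ := exists_move hκ a
    obtain ⟨h1, h2, _, h4, _⟩ := h α hα
    obtain ⟨h5, h6⟩ := h4 0 1 Nat.zero_lt_one
    rw [h1] at h5 h6
    exact h5 (ha _ (h2 1 le_rfl).1 (h6.mono haα)).symm
  · intro x hx
    refine (isClosed_iff.mp hP.1) x fun a => ?_
    by_contra hcon
    push Not at hcon
    have hsub : {y | y ∈ E ∧ Agree a x y} ⊆ X := by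
      rintro y ⟨hy, hxy⟩
      by_contra hyX
      exact hcon y ⟨⟨y, ret_mem c hy⟩, hyX⟩ hxy
    exact absurd ((hl x hx a).trans_le ((mk_le_mk_of_subset hsub).trans hX)) (lt_irrefl _)

/-- `E` is a retract of the generalised Baire space. -/
def Retract (E : Set (GB κ)) : Prop :=
  ∃ r : GB κ → GB κ, Continuous r ∧ (∀ x, r x ∈ E) ∧ ∀ x ∈ E, r x = x

/-- `E` is a continuous image of the generalised Baire space. -/
def BaireImage (E : Set (GB κ)) : Prop :=
  ∃ f : GB κ → E, Continuous f ∧ Function.Surjective f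

theorem Retract.image {E : Set (GB κ)} (h : Retract E) : BaireImage E := by
  obtain ⟨r, hr, h1, h2⟩ := h
  exact ⟨fun x => ⟨r x, h1 x⟩, Continuous.subtype_mk hr _, fun x => ⟨x.1, Subtype.ext (h2 x.1 x.2)⟩⟩

theorem all_of_retracts (hκ : ℵ₀ ≤ κ)
    (h : ∀ E : Set (GB κ), IsClosed E → Retract E → ∃ X ⊆ E, #X ≤ κ ^< κ ∧ OmegaPerfect (E \ X))
    (E : Set (GB κ)) (hE : IsClosed E) : ∃ X ⊆ E, #X ≤ κ ^< κ ∧ OmegaPerfect (E \ X) := by
  have hne := nonempty_idx hκ
  obtain ⟨c⟩ := nonempty_idx hκ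
  have hK := ker_closed hκ E hE
  obtain ⟨X, _, hX, hP⟩ := h (range (ret (Ker E) c)) (range_closed hκ hK c)
    ⟨ret (Ker E) c, ret_continuous hK c, fun x => mem_range_self x, by
      rintro _ ⟨z, rfl⟩
      exact ret_ret hK c z⟩
  have h1 := perfect_eq hκ hK (ker_large hκ E) c X hX hP
  rw [h1] at hP
  refine ⟨E \ Ker E, diff_subset, small_rest hκ E, ?_⟩
  have hsub : E \ (E \ Ker E) = Ker E := by
    ext x
    constructor
    · rintro ⟨h1, h2⟩
      by_contra h3
      exact h2 ⟨h1, h3⟩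
    · intro h
      exact ⟨h.1, fun h2 => h2.2 h⟩
  rw [hsub]
  exact hP

end Pool.Agent.Q211.PF
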