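import Pool.Agent.Q211.PF.Tree

/-!
# The sequences with finitely many switches form a continuous image
-/

namespace Pool.Agent.Q211.PF

open Cardinal Set Order

universe u

variable {κ : Cardinal.{u}}

section Surj

variable (e : Idx κ × Bool ≃ Idx κ) (e3 : Idx κ ≃ Idx κ × Idx κ × Bool) (f : GB κ → GB κ)

/-- First component of the code. -/
def y1 (y : GB κ) : GB κ := fun i => (e3 (y i)).1
/-- Second component of the code. -/
def y2 (y : GB κ) : GB κ := fun i => (e3 (y i)).2.1
/-- The marks of the code. -/
def yb (y : GB κ) (i : Idx κ) : Bool := (e3 (y i)).2.2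

open Classical in
/-- The coding of sequences with at most `n` switches. -/
noncomputable def gmap : ℕ → GB κ → GB κ
  | 0, y => fun l => e (f y l, false)
  | n + 1, y => fun l =>
    if ∃ i ≤ l, yb e3 y i = true then
      (if ∀ i < l, yb e3 y i = false then e (val e (gmap n (y2 e3 y)) l, true)
        else gmap n (y2 e3 y) l)
    else e (f (y1 e3 y) l, false)

variable {e e3 f}

theorem gmap_before {n : ℕ} {y : GB κ} {l : Idx κ} (h : ∀ i ≤ l, yb e3 y i = false) :
    gmap e e3 f (n + 1) y l = e (f (y1 e3 y) l, false) := by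
  have : ¬ ∃ i ≤ l, yb e3 y i = true := by
    rintro ⟨i, hi, hb⟩
    rw [h i hi] at hb
    exact Bool.noConfusion hb
  simp only [gmap, if_neg this]

theorem gmap_at {n : ℕ} {y : GB κ} {l : Idx κ} (h0 : yb e3 y l = true)
    (h : ∀ i < l, yb e3 y i = false) :
    gmap e e3 f (n + 1) y l = e (val e (gmap e e3 f n (y2 e3 y)) l, true) := by
  simp only [gmap, if_pos (⟨l, le_rfl, h0⟩ : ∃ i ≤ l, yb e3 y i = true), if_pos h]

theorem gmap_after {n : ℕ} {y : GB κ} {l i : Idx κ} (h0 : yb e3 y i = true) (hi : i < l) :
    gmap e e3 f (n + 1) y l = gmap e e3 f n (y2 e3 y) l := by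
  have : ¬ ∀ i < l, yb e3 y i = false := by
    intro h
    rw [h i hi] at h0
    exact Bool.noConfusion h0
  simp only [gmap, if_pos (⟨i, hi.le, h0⟩ : ∃ i ≤ l, yb e3 y i = true), if_neg this]

/-- Either there is no mark, or there is a first one. -/
theorem first_mark (y : GB κ) : (∀ i, yb e3 y i = false) ∨
    ∃ m, yb e3 y m = true ∧ ∀ i < m, yb e3 y i = false := by
  by_cases h : ∃ m, yb e3 y m = true
  · right
    obtain ⟨m, hm, hmin⟩ := WellFounded.has_min (wellFounded_lt (α := Idx κ))
      {m | yb e3 y m = true} h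
    refine ⟨m, hm, fun i hi => ?_⟩
    by_contra hcon
    exact hmin i (Bool.eq_true_of_not_eq_false hcon) hi
  · left
    push Not at h
    intro i
    exact Bool.eq_false_of_not_eq_true (h i)

theorem gmap_good {B : Set (GB κ)} (hB : ∀ y, f y ∈ B) :
    ∀ (n : ℕ) (y : GB κ) (l : Idx κ), Good e B n (gmap e e3 f n y) l := by
  intro n
  induction n with
  | zero =>
    intro y l
    refine ⟨f y, hB y, fun j _ => ⟨?_, fun _ => ?_⟩⟩
    · simp [val, gmap]
    · simp [bit, gmap]
  | succ n ih =>
    intro y l
    rcases first_mark (e3 := e3) y with h | ⟨m, hm, hmin⟩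
    · refine Or.inl ⟨f (y1 e3 y), hB _, fun j _ => ?_⟩
      have := gmap_before (e := e) (f := f) (n := n) (y := y) (l := j) fun i _ => h i
      refine ⟨?_, fun _ => ?_⟩
      · simp only [val, this, Equiv.symm_apply_apply]
      · simp only [bit, this, Equiv.symm_apply_apply]
    · have hgt : ∀ j, m < j → gmap e e3 f n (y2 e3 y) j = gmap e e3 f (n + 1) y j :=
        fun j hj => (gmap_after hm hj).symm
      have hmv : val e (gmap e e3 f n (y2 e3 y)) m = val e (gmap e e3 f (n + 1) y) m := by
        have h1 : val e (gmap e e3 f (n + 1) y) m =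
            (e.symm (e (val e (gmap e e3 f n (y2 e3 y)) m, true))).1 := by
          show (e.symm (gmap e e3 f (n + 1) y m)).1 = _
          rw [gmap_at hm hmin]
        rw [h1, Equiv.symm_apply_apply]
      rcases lt_or_ge l m with hlm | hml
      · refine Or.inr ⟨m, hlm, ?_, ⟨f (y1 e3 y), hB _, fun j _ hjm => ?_⟩, ?_⟩
        · simp only [bit, gmap_at hm hmin, Equiv.symm_apply_apply]
        · have := gmap_before (e := e) (f := f) (n := n) (y := y) (l := j)
            fun i hi => hmin i (hi.trans_lt hjm)
          refine ⟨?_, fun _ => ?_⟩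
          · simp only [val, this, Equiv.symm_apply_apply]
          · simp only [bit, this, Equiv.symm_apply_apply]
        · exact good_congr hmv hgt (ih (y2 e3 y) m)
      · apply good_mono
        refine good_congr ?_ (fun j hj => hgt j (hml.trans_lt hj)) (ih (y2 e3 y) l)
        rcases hml.eq_or_lt with rfl | hml
        · exact hmv
        · simp only [val, hgt l hml]

theorem gmap_surj {B : Set (GB κ)} (hB : ∀ x ∈ B, ∃ y, f y = x) (e3s : Function.Surjective e3) :
    ∀ (n : ℕ) (z : GB κ) (i : Idx κ), Good e B n z i →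
      ∃ y, val e (gmap e e3 f n y) i = val e z i ∧ ∀ l, i < l → gmap e e3 f n y l = z l := by
  have mk : ∀ (w v : GB κ) (b : Idx κ → Bool), ∃ y, y1 e3 y = w ∧ y2 e3 y = v ∧
      ∀ i, yb e3 y i = b i := by
    intro w v b
    choose y hy using fun i => e3s (w i, v i, b i)
    refine ⟨y, ?_, ?_, ?_⟩
    · funext i; simp [y1, hy]
    · funext i; simp [y2, hy]
    · intro i; simp [yb, hy]
  intro n
  induction n with
  | zero =>
    rintro z i ⟨x, hx, h⟩
    obtain ⟨y, rfl⟩ := hB x hx
    refine ⟨y, ?_, fun l hl => ?_⟩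
    · rw [(h i le_rfl).1]
      simp [val, gmap]
    · apply eq_of_val_bit (e := e)
      · rw [(h l hl.le).1]; simp [val, gmap]
      · rw [(h l hl.le).2 hl]; simp [bit, gmap]
  | succ n ih =>
    rintro z i (⟨x, hx, h⟩ | ⟨j, h1, h2, ⟨x, hx, h3⟩, h4⟩)
    · obtain ⟨w, rfl⟩ := hB x hx
      obtain ⟨y, hy1, -, hyb⟩ := mk w w fun _ => false
      have hg : ∀ l, gmap e e3 f (n + 1) y l = e (f w l, false) := by
        intro l
        rw [gmap_before (fun i _ => hyb i), hy1]
      refine ⟨y, ?_, fun l hl => ?_⟩
      · rw [(h i le_rfl).1]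
        simp only [val, hg, Equiv.symm_apply_apply]
      · apply eq_of_val_bit (e := e)
        · rw [(h l hl.le).1]; simp only [val, hg, Equiv.symm_apply_apply]
        · rw [(h l hl.le).2 hl]; simp only [bit, hg, Equiv.symm_apply_apply]
    · obtain ⟨w, rfl⟩ := hB x hx
      obtain ⟨v, hv1, hv2⟩ := ih z j h4
      classical
      obtain ⟨y, hy1, hy2, hyb⟩ := mk w v fun l => decide (l = j)
      have hb1 : yb e3 y j = true := by rw [hyb]; simp
      have hb2 : ∀ l, l < j → yb e3 y l = false := by
        intro l hl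
        rw [hyb]
        simp [hl.ne]
      have hlt : ∀ l, l < j → gmap e e3 f (n + 1) y l = e (f w l, false) := by
        intro l hl
        rw [gmap_before (fun i hi => hb2 i (hi.trans_lt hl)), hy1]
      refine ⟨y, ?_, fun l hl => ?_⟩
      · rw [(h3 i le_rfl h1).1]
        simp only [val, hlt i h1, Equiv.symm_apply_apply]
      · rcases lt_trichotomy l j with hlj | rfl | hlj
        · apply eq_of_val_bit (e := e)
          · rw [(h3 l hl.le hlj).1]; simp only [val, hlt l hlj, Equiv.symm_apply_apply]
          · rw [(h3 l hl.le hlj).2 hl]; simp only [bit, hlt l hlj, Equiv.symm_apply_apply]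
        · apply eq_of_val_bit (e := e)
          · rw [← hv1, ← hy2]
            simp only [val, gmap_at hb1 hb2, Equiv.symm_apply_apply]
          · rw [h2]
            simp only [bit, gmap_at hb1 hb2, Equiv.symm_apply_apply]
        · rw [gmap_after hb1 hlj, hy2, hv2 l hlj]

theorem gmap_continuous [Nonempty (Idx κ)] (hf : Continuous f) :
    ∀ n, Continuous (gmap e e3 f n) := by
  intro n
  rw [continuous_iff] at hf
  induction n with
  | zero =>
    rw [continuous_iff]
    intro y a
    obtain ⟨c, hc⟩ := hf y a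
    refine ⟨c, fun y' hy' i hi => ?_⟩
    simp only [gmap, hc y' hy' i hi]
  | succ n ih =>
    rw [continuous_iff] at ih ⊢
    intro y a
    obtain ⟨c1, hc1⟩ := hf (y1 e3 y) a
    obtain ⟨c2, hc2⟩ := ih (y2 e3 y) a
    refine ⟨max a (max c1 c2), fun y' hy' => ?_⟩
    have h1 : Agree c1 (y1 e3 y) (y1 e3 y') := by
      intro i hi
      simp only [y1, hy' i (hi.trans_le ((le_max_left _ _).trans (le_max_right _ _)))]
    have h2 : Agree c2 (y2 e3 y) (y2 e3 y') := by
      intro i hi
      simp only [y2, hy' i (hi.trans_le ((le_max_right _ _).trans (le_max_right _ _)))]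
    have h3 : ∀ i < a, yb e3 y i = yb e3 y' i := by
      intro i hi
      simp only [yb, hy' i (hi.trans_le (le_max_left _ _))]
    have h4 := hc1 _ h1
    have h5 := hc2 _ h2
    intro l hl
    rcases first_mark (e3 := e3) y with h | ⟨m, hm, hmin⟩
    · rw [gmap_before (fun i _ => h i), gmap_before (fun i hi => by
        rw [← h3 i (hi.trans_lt hl)]; exact h i), h4 l hl]
    · rcases lt_trichotomy l m with hlm | rfl | hlm
      · rw [gmap_before (fun i hi => hmin i (hi.trans_lt hlm)), gmap_before (fun i hi => by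
          rw [← h3 i (hi.trans_lt hl)]; exact hmin i (hi.trans_lt hlm)), h4 l hl]
      · rw [gmap_at hm hmin, gmap_at (y := y') (by rw [← h3 l hl]; exact hm) (fun i hi => by
          rw [← h3 i (hi.trans hl)]; exact hmin i hi)]
        simp only [val, h5 l hl]
      · rw [gmap_after hm hlm, gmap_after (y := y') (i := m) (by
          rw [← h3 m (hlm.trans hl)]; exact hm) hlm, h5 l hl]

/-- The number of restrictions to `a`. -/
theorem gmap_levels {μ : Cardinal.{u}} (hμ : ℵ₀ ≤ μ) (a : Idx κ) (ha : #(Iio a) ≤ μ)
    (hf : #(range fun y : GB κ => fun i : Iio a => f y i.1) ≤ μ) :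
    ∀ n, #(range fun y : GB κ => fun i : Iio a => gmap e e3 f n y i.1) ≤ μ := by
  intro n
  induction n with
  | zero =>
    refine le_trans ?_ hf
    refine le_trans (mk_le_mk_of_subset (?_ : _ ⊆ (fun (r : Iio a → Idx κ) (i : Iio a) =>
      e (r i, false)) '' (range fun y : GB κ => fun i : Iio a => f y i.1))) mk_image_le
    rintro _ ⟨y, rfl⟩
    exact ⟨_, ⟨y, rfl⟩, rfl⟩
  | succ n ih =>
    classical
    let R0 := range fun y : GB κ => fun i : Iio a => f y i.1
    let R := range fun y : GB κ => fun i : Iio a => gmap e e3 f n y i.1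
    let F : R0 × R × Option (Iio a) → (Iio a → Idx κ) := fun p i =>
      match p.2.2 with
      | none => e (p.1.1 i, false)
      | some m => if i < m then e (p.1.1 i, false) else if i = m then
          e ((e.symm (p.2.1.1 i)).1, true) else p.2.1.1 i
    have hsub : (range fun y : GB κ => fun i : Iio a => gmap e e3 f (n + 1) y i.1) ⊆ range F := by
      rintro _ ⟨y, rfl⟩
      by_cases hex : ∃ m < a, yb e3 y m = true
      · rcases first_mark (e3 := e3) y with h | ⟨m, hm, hmin⟩
        · obtain ⟨m, _, hm⟩ := hex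
          rw [h m] at hm
          exact Bool.noConfusion hm
        · have hma : m < a := by
            obtain ⟨m', h1, h2⟩ := hex
            by_contra hcon
            rw [hmin m' (h1.trans_le (not_lt.mp hcon))] at h2
            exact Bool.noConfusion h2
          refine ⟨⟨⟨_, ⟨y1 e3 y, rfl⟩⟩, ⟨_, ⟨y2 e3 y, rfl⟩⟩, some ⟨m, hma⟩⟩, ?_⟩
          funext i
          show (if i < ⟨m, hma⟩ then e (f (y1 e3 y) i.1, false) else if i = ⟨m, hma⟩ then
            e ((e.symm (gmap e e3 f n (y2 e3 y) i.1)).1, true) else gmap e e3 f n (y2 e3 y) i.1) =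
            gmap e e3 f (n + 1) y i.1
          rcases lt_trichotomy i.1 m with h | h | h
          · rw [if_pos (by exact h), gmap_before (fun k hk => hmin k (hk.trans_lt h))]
          · have h' : i = ⟨m, hma⟩ := Subtype.ext h
            rw [if_neg (by rw [h']; exact lt_irrefl _), if_pos h']
            have h2 : i.1 = m := h
            rw [h2, gmap_at hm hmin]
            rfl
          · rw [if_neg (by
              intro h'
              exact lt_asymm h h'), if_neg (by
              intro h'
              rw [h'] at h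
              exact lt_irrefl _ h), gmap_after hm h]
      · push Not at hex
        refine ⟨⟨⟨_, ⟨y1 e3 y, rfl⟩⟩, ⟨_, ⟨y2 e3 y, rfl⟩⟩, none⟩, ?_⟩
        funext i
        show e (f (y1 e3 y) i.1, false) = gmap e e3 f (n + 1) y i.1
        rw [gmap_before (fun k hk => Bool.eq_false_of_not_eq_true (hex k (hk.trans_lt i.2)))]
    calc #(range fun y : GB κ => fun i : Iio a => gmap e e3 f (n + 1) y i.1) ≤ #(range F) :=
          mk_le_mk_of_subset hsub
      _ ≤ #(R0 × R × Option (Iio a)) := mk_range_le
      _ = #R0 * (#R * (#(Iio a) + 1)) := by simp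
      _ ≤ μ * (μ * (μ + 1)) := by
          refine mul_le_mul' hf (mul_le_mul' ih ?_)
          exact add_le_add ha le_rfl
      _ = μ := by
          rw [add_one_eq hμ, mul_eq_self hμ, mul_eq_self hμ]

end Surj

end Pool.Agent.Q211.PF
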