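import Pool.Agent.Q211.PF.Def

/-!
# Kurepa trees and continuous images of the generalised Baire space
-/

namespace Pool.Agent.Q211.PF

open Cardinal Set Order

universe u

/-- The nodes: functions from an ordinal `a < κ` to `κ`. -/
abbrev Node (κ : Cardinal.{u}) : Type u := Σ a : Idx κ, (Iio a → Idx κ)

/-- The restriction `x ↾ a`. -/
def res {κ : Cardinal.{u}} (x : GB κ) (a : Idx κ) : Node κ := ⟨a, fun i => x i.1⟩

/-- Subtrees: sets of nodes closed under initial segments. -/
def IsSubtree {κ : Cardinal.{u}} (T : Set (Node κ)) : Prop :=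
  ∀ s ∈ T, ∀ (b : Idx κ) (h : b ≤ s.1), (⟨b, fun i => s.2 ⟨i.1, i.2.trans_le h⟩⟩ : Node κ) ∈ T

/-- The set `[T]` of branches. -/
def body {κ : Cardinal.{u}} (T : Set (Node κ)) : Set (GB κ) := {x | ∀ a, res x a ∈ T}

/-- `T` is a subtree of height `κ`, all levels of `T` have at most `μ` elements, and
`T` has more than `κ` branches. -/
structure IsKurepa (κ μ : Cardinal.{u}) (T : Set (Node κ)) : Prop where
  subtree : IsSubtree T
  height : ∀ a : Idx κ, ∃ s ∈ T, s.1 = a
  levels : ∀ a : Idx κ, #{s : Node κ | s ∈ T ∧ s.1 = a} ≤ μ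
  branches : κ < #(body T)

/-- `A` is a continuous image of the generalised Baire space. -/
def ContinuousImage {κ : Cardinal.{u}} (A : Set (GB κ)) : Prop :=
  ∃ f : GB κ → A, Continuous f ∧ Function.Surjective f

/-- Every node has more than `κ` branches through it. -/
def EverywhereLarge {κ : Cardinal.{u}} (T : Set (Node κ)) : Prop :=
  ∀ s ∈ T, κ < #{x : GB κ | x ∈ body T ∧ res x s.1 = s}

variable {κ : Cardinal.{u}}

theorem res_eq_iff {x y : GB κ} {a : Idx κ} : res x a = res y a ↔ Agree a x y := by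
  constructor
  · intro h i hi
    have h1 : (fun i : Iio a => x i.1) = fun i : Iio a => y i.1 := by
      simpa [res] using h
    exact congrFun h1 ⟨i, hi⟩
  · intro h
    unfold res
    congr 1
    funext i
    exact h i.1 i.2

theorem nonempty_idx' (hκ : ℵ₀ ≤ κ) : Nonempty (Idx κ) := by
  rw [← mk_ne_zero_iff]
  simp only [mk_toType, card_ord]
  exact (aleph0_pos.trans_le hκ).ne'

theorem exists_bot (hκ : ℵ₀ ≤ κ) : ∃ b : Idx κ, ∀ i, b ≤ i := by
  obtain ⟨c⟩ := nonempty_idx' hκ
  obtain ⟨b, -, hb⟩ := WellFounded.has_min (wellFounded_lt (α := Idx κ)) univ ⟨c, trivial⟩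
  exact ⟨b, fun i => not_lt.mp (hb i trivial)⟩

theorem bounded' (hκ : κ.IsRegular) {ι : Type u} (hι : #ι < κ) (f : ι → Idx κ) :
    ∃ b, ∀ i, f i < b := by
  by_contra hcon
  push Not at hcon
  have hc : IsCofinal (range f) := by
    intro b
    obtain ⟨i, hi⟩ := hcon b
    exact ⟨f i, mem_range_self i, hi⟩
  have h1 := Order.cof_le hc
  rw [Ordinal.cof_toType, hκ.cof_ord] at h1
  exact absurd (hι.trans_le (h1.trans mk_range_le)) (lt_irrefl _)

theorem continuous_iff [Nonempty (Idx κ)] {g : GB κ → GB κ} :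
    Continuous g ↔ ∀ y a, ∃ c, ∀ y', Agree c y y' → Agree a (g y) (g y') := by
  constructor
  · intro h y a
    have hU : IsOpen (g ⁻¹' {z | Agree a (g y) z}) := by
      apply IsOpen.preimage h
      exact TopologicalSpace.isOpen_generateFrom_of_mem ⟨a, g y, rfl⟩
    rw [isOpen_iff] at hU
    exact hU y (Agree.refl a (g y))
  · intro h
    constructor
    intro U hU
    rw [isOpen_iff] at hU ⊢
    intro y hy
    obtain ⟨a, ha⟩ := hU (g y) hy
    obtain ⟨c, hc⟩ := h y a
    exact ⟨c, fun y' hy' => ha _ (hc y' hy')⟩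

/-! ## Sequences with finitely many switches -/

section Switch

variable (e : Idx κ × Bool ≃ Idx κ) (B : Set (GB κ))

/-- The value at `i`. -/
def val (z : GB κ) (i : Idx κ) : Idx κ := (e.symm (z i)).1

/-- The mark at `i`. -/
def bit (z : GB κ) (i : Idx κ) : Bool := (e.symm (z i)).2

/-- From `i` on, `z` switches at most `n` times between members of `B`. -/
def Good : ℕ → GB κ → Idx κ → Prop
  | 0, z, i => ∃ x ∈ B, ∀ j, i ≤ j → val e z j = x j ∧ (i < j → bit e z j = false)
  | n + 1, z, i => (∃ x ∈ B, ∀ j, i ≤ j → val e z j = x j ∧ (i < j → bit e z j = false)) ∨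
      ∃ j, i < j ∧ bit e z j = true ∧
        (∃ x ∈ B, ∀ l, i ≤ l → l < j → val e z l = x l ∧ (i < l → bit e z l = false)) ∧
        Good n z j

variable {e B}

theorem eq_of_val_bit {z w : GB κ} {l : Idx κ} (h1 : val e z l = val e w l)
    (h2 : bit e z l = bit e w l) : z l = w l :=
  e.symm.injective (Prod.ext h1 h2)

theorem good_mono {n : ℕ} {z : GB κ} {i : Idx κ} (h : Good e B n z i) : Good e B (n + 1) z i := by
  induction n generalizing i with
  | zero => exact Or.inl h
  | succ n ih =>
    rcases h with h | ⟨j, h1, h2, h3, h4⟩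
    · exact Or.inl h
    · exact Or.inr ⟨j, h1, h2, h3, ih h4⟩

theorem good_congr {n : ℕ} {z w : GB κ} {i : Idx κ} (h0 : val e z i = val e w i)
    (h1 : ∀ l, i < l → z l = w l) (h : Good e B n z i) : Good e B n w i := by
  have hval : ∀ l, i ≤ l → val e w l = val e z l := by
    intro l hl
    rcases hl.eq_or_lt with rfl | hl
    · exact h0.symm
    · simp only [val, h1 l hl]
  have hbit : ∀ l, i < l → bit e w l = bit e z l := by
    intro l hl
    simp only [bit, h1 l hl]
  have zero : (∃ x ∈ B, ∀ j, i ≤ j → val e z j = x j ∧ (i < j → bit e z j = false)) →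
      (∃ x ∈ B, ∀ j, i ≤ j → val e w j = x j ∧ (i < j → bit e w j = false)) := by
    rintro ⟨x, hx, h⟩
    refine ⟨x, hx, fun j hj => ⟨?_, fun hij => ?_⟩⟩
    · rw [hval j hj]; exact (h j hj).1
    · rw [hbit j hij]; exact (h j hj).2 hij
  induction n generalizing i with
  | zero => exact zero h
  | succ n ih =>
    rcases h with h | ⟨j, h2, h3, ⟨x, hx, h4⟩, h5⟩
    · exact Or.inl (zero h)
    · refine Or.inr ⟨j, h2, ?_, ⟨x, hx, fun l hl hlj => ⟨?_, fun hil => ?_⟩⟩, ?_⟩
      · rw [hbit j h2]; exact h3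
      · rw [hval l hl]; exact (h4 l hl hlj).1
      · rw [hbit l hil]; exact (h4 l hl hlj).2 hil
      · have hv : val e z j = val e w j := (hval j h2.le).symm
        have hz : ∀ l, j < l → z l = w l := fun l hl => h1 l (h2.trans hl)
        refine ih hv hz h5 ?_ ?_ ?_
        · intro l hl
          exact hval l (h2.le.trans hl)
        · intro l hl
          exact hbit l (h2.trans hl)
        · rintro ⟨x, hx, h⟩
          refine ⟨x, hx, fun l hl => ⟨?_, fun hjl => ?_⟩⟩
          · rw [hval l (h2.le.trans hl)]; exact (h l hl).1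
          · rw [hbit l (h2.trans hjl)]; exact (h l hl).2 hjl

theorem good_finite {n : ℕ} {z : GB κ} {i : Idx κ} (h : Good e B n z i) :
    {j | i < j ∧ bit e z j = true}.Finite := by
  have zero : ∀ i, (∃ x ∈ B, ∀ j, i ≤ j → val e z j = x j ∧ (i < j → bit e z j = false)) →
      {j | i < j ∧ bit e z j = true}.Finite := by
    rintro i ⟨x, hx, h⟩
    convert Set.finite_empty (α := Idx κ)
    ext j
    simp only [mem_ofPred_eq, mem_empty_iff_false, iff_false, not_and]
    intro hj hb
    rw [(h j hj.le).2 hj] at hb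
    exact Bool.noConfusion hb
  induction n generalizing i with
  | zero => exact zero i h
  | succ n ih =>
    rcases h with h | ⟨j, h1, h2, ⟨x, hx, h3⟩, h4⟩
    · exact zero i h
    · refine ((ih h4).insert j).subset ?_
      rintro l ⟨hl, hb⟩
      rcases lt_trichotomy l j with hlj | rfl | hlj
      · rw [(h3 l hl.le hlj).2 hl] at hb
        exact Bool.noConfusion hb
      · exact mem_insert _ _
      · exact mem_insert_of_mem _ ⟨hlj, hb⟩

/-- The first block. -/
theorem good_first {n : ℕ} {z : GB κ} {i : Idx κ} (h : Good e B n z i) :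
    ∃ x ∈ B, ∀ l, i ≤ l → (∀ j, i < j → j ≤ l → bit e z j = false) → val e z l = x l := by
  cases n with
  | zero =>
    obtain ⟨x, hx, h⟩ := h
    exact ⟨x, hx, fun l hl _ => (h l hl).1⟩
  | succ n =>
    rcases h with ⟨x, hx, h⟩ | ⟨j, h1, h2, ⟨x, hx, h3⟩, _⟩
    · exact ⟨x, hx, fun l hl _ => (h l hl).1⟩
    · refine ⟨x, hx, fun l hl hb => ?_⟩
      by_cases hlj : l < j
      · exact (h3 l hl hlj).1
      · have := hb j h1 (not_lt.mp hlj)
        rw [h2] at this
        exact Bool.noConfusion this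

/-- The rest after the first mark. -/
theorem good_next {n : ℕ} {z : GB κ} {i j : Idx κ} (h : Good e B n z i) (hij : i < j)
    (hj : bit e z j = true) (hf : ∀ l, i < l → l < j → bit e z l = false) :
    ∃ m, Good e B m z j := by
  have zero : ¬ (∃ x ∈ B, ∀ j, i ≤ j → val e z j = x j ∧ (i < j → bit e z j = false)) := by
    rintro ⟨x, hx, h⟩
    rw [(h j hij.le).2 hij] at hj
    exact Bool.noConfusion hj
  cases n with
  | zero => exact absurd h zero
  | succ n =>
    rcases h with h | ⟨j', h1, h2, ⟨x, hx, h3⟩, h4⟩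
    · exact absurd h zero
    · have : j' = j := by
        rcases lt_trichotomy j' j with hlt | heq | hlt
        · rw [hf j' h1 hlt] at h2
          exact Bool.noConfusion h2
        · exact heq
        · rw [(h3 j hij.le hlt).2 hij] at hj
          exact Bool.noConfusion hj
      subst this
      exact ⟨n, h4⟩

/-- Switch to the branch `x` at `j`. -/
noncomputable def switch (e : Idx κ × Bool ≃ Idx κ) (z : GB κ) (j : Idx κ) (x : GB κ) : GB κ :=
  fun l => if l < j then z l else if l = j then e (x l, true) else e (x l, false)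

theorem switch_val_ge {z x : GB κ} {j l : Idx κ} (h : j ≤ l) :
    val e (switch e z j x) l = x l := by
  unfold val switch
  rw [if_neg (not_lt.mpr h)]
  split_ifs <;> simp

theorem switch_bit_gt {z x : GB κ} {j l : Idx κ} (h : j < l) :
    bit e (switch e z j x) l = false := by
  unfold bit switch
  rw [if_neg (not_lt.mpr h.le), if_neg h.ne']
  simp

theorem switch_bit_self {z x : GB κ} {j : Idx κ} :
    bit e (switch e z j x) j = true := by
  unfold bit switch
  rw [if_neg (lt_irrefl _), if_pos rfl]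
  simp

theorem switch_lt {z x : GB κ} {j l : Idx κ} (h : l < j) : switch e z j x l = z l := if_pos h

theorem good_switch {n : ℕ} {z : GB κ} {i j : Idx κ} (h : Good e B n z i) (hij : i < j)
    {x : GB κ} (hx : x ∈ B) : ∃ m, Good e B m (switch e z j x) i := by
  have hval : ∀ l, l < j → val e (switch e z j x) l = val e z l := fun l hl => by
    simp only [val, switch_lt hl]
  have hbit : ∀ l, l < j → bit e (switch e z j x) l = bit e z l := fun l hl => by
    simp only [bit, switch_lt hl]
  have base : ∀ i, i < j →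
      (∃ x0 ∈ B, ∀ l, i ≤ l → l < j → val e z l = x0 l ∧ (i < l → bit e z l = false)) →
      ∃ m, Good e B m (switch e z j x) i := by
    rintro i hij ⟨x0, hx0, h0⟩
    refine ⟨1, Or.inr ⟨j, hij, switch_bit_self, ⟨x0, hx0, fun l hl hlj => ?_⟩, x, hx,
      fun l hl => ⟨switch_val_ge hl, fun hjl => switch_bit_gt hjl⟩⟩⟩
    rw [hval l hlj, hbit l hlj]
    exact h0 l hl hlj
  induction n generalizing i with
  | zero =>
    obtain ⟨x0, hx0, h0⟩ := h
    exact base i hij ⟨x0, hx0, fun l hl _ => h0 l hl⟩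
  | succ n ih =>
    rcases h with ⟨x0, hx0, h0⟩ | ⟨j', h1, h2, ⟨x0, hx0, h3⟩, h4⟩
    · exact base i hij ⟨x0, hx0, fun l hl _ => h0 l hl⟩
    · by_cases hjj : j' < j
      · obtain ⟨m, hm⟩ := ih h4 hjj
        refine ⟨m + 1, Or.inr ⟨j', h1, ?_, ⟨x0, hx0, fun l hl hlj => ?_⟩, hm⟩⟩
        · rw [hbit j' hjj]; exact h2
        · rw [hval l (hlj.trans hjj), hbit l (hlj.trans hjj)]
          exact h3 l hl hlj
      · exact base i hij ⟨x0, hx0, fun l hl hlj => h3 l hl (hlj.trans_le (not_lt.mp hjj))⟩

end Switch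

end Pool.Agent.Q211.PF
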